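import Pool.Agent.Lib.Pff0a55C.Stage

set_option autoImplicit false

namespace Pool.Agent.Lib.Pff0a55C

variable {d : ℕ} {i0 : Fin d}

lemma exists_gap {l : List (Pt d)} (h : 1 ≤ psum gp l) :
    ∃ A u v B, l = A ++ u :: v :: B ∧ ¬ Adj u v := by
  induction l with
  | nil => simp at h
  | cons a l ih =>
    cases l with
    | nil => simp at h
    | cons b l =>
      by_cases hab : Adj a b
      · rw [psum_cons_cons, gp_adj hab] at h
        obtain ⟨A, u, v, B, h1, h2⟩ := ih (by omega)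
        exact ⟨a :: A, u, v, B, by rw [h1]; rfl, h2⟩
      · exact ⟨[], a, b, l, rfl, hab⟩

/-- rotate the cyclic list so that a gap becomes the active one -/
lemma rotate_gap {N K : ℕ} {l : List (Pt d)} {p q : Pt d} (hn : l.Nodup)
    (hp : l.head? = some p) (hq : l.getLast? = some q) (hpq : Adj p q) (hg : 1 ≤ psum gp l)
    (hN : l.length ≤ N) :
    ∃ l' p' q', Rel i0 N K 0 1 l l' ∧ l'.Nodup ∧ l'.head? = some p' ∧ l'.getLast? = some q' ∧
      psum gp l' + 1 = psum gp l ∧ psum (gph i0) l' + ph i0 p' q' ≤ psum (gph i0) l ∧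
      l'.length = l.length := by
  obtain ⟨A, u, v, B, rfl, huv⟩ := exists_gap hg
  have e1 : A ++ u :: v :: B = (A ++ [u]) ++ (v :: B) := by simp
  have hex : Exp i0 N K (A ++ u :: v :: B) ((v :: B) ++ (A ++ [u])) := by
    rw [e1]; apply Exp.rot; rw [← e1]; exact hN
  have hq' : (v :: B).getLast? = some q := by
    rw [e1, List.getLast?_append] at hq
    simpa [List.getLast?_cons] using hq
  have hp' : (A ++ [u]).head? = some p := by
    cases A with
    | nil => simpa using hp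
    | cons a A => simpa using hp
  obtain ⟨B₁, hB₁⟩ : ∃ B₁, v :: B = B₁ ++ [q] := by
    refine ⟨(v :: B).dropLast, ?_⟩
    rw [List.getLast?_eq_getLast_of_ne_nil (by simp)] at hq'
    have h1 := List.dropLast_append_getLast (l := v :: B) (by simp)
    rw [Option.some.inj hq'] at h1
    exact h1.symm
  obtain ⟨A₁, hA₁⟩ : ∃ A₁, A ++ [u] = p :: A₁ := by
    cases h : A ++ [u] with
    | nil => simp at h
    | cons a A₁ => rw [h] at hp'; simp at hp'; exact ⟨A₁, by rw [hp']⟩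
  have hps : ∀ f : Pt d → Pt d → ℕ, psum f ((v :: B) ++ (A ++ [u])) + f u v =
      psum f (A ++ u :: v :: B) + f q p := by
    intro f
    rw [psum_append2 f A u v B]
    have e2 : (v :: B) ++ (A ++ [u]) = B₁ ++ q :: p :: A₁ := by rw [hB₁, hA₁]; simp
    rw [e2, psum_append2, ← hB₁, ← hA₁]
    omega
  have h1 := hps gp
  have h2 := hps (gph i0)
  rw [gp_nadj huv, gp_adj hpq.symm] at h1
  rw [gph_nadj i0 huv, gph_adj i0 hpq.symm] at h2
  refine ⟨_, v, u, Rel.of_exp hex, exp_nodup hex hn, rfl, ?_, by omega, ?_, ?_⟩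
  · rw [List.getLast?_append]; simp
  · rw [ph_comm i0 v u]; omega
  · simp; omega

/-- closing all gaps -/
lemma close_all {N K ρ J : ℕ} (hNN : (K + 1) * ρ + K * (2 * K + 6) + 2 * ρ + 2 * K + 8 ≤ N)
    (C0 : ℕ) (hC0 : C0 = 2 * (2 * K + 6) * J + 8 * (ρ + K + 4) + 2 * K + 21) :
    ∀ g : ℕ, g ≤ J → ∀ (l : List (Pt d)) (p q : Pt d), l.Nodup → l.head? = some p →
    l.getLast? = some q → psum gp l ≤ g →
    l.length + (psum (gph i0) l + ph i0 p q) + (g + 1) * (C0 + K * (2 * K + 8)) < (K + 1) * ρ →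
    ∃ l' p' q' k, Rel i0 N K k ((g + 1) * (2 * K + 9)) l l' ∧ l'.Nodup ∧ l'.head? = some p' ∧
      l'.getLast? = some q' ∧ Adj p' q' ∧ psum gp l' = 0 ∧
      k ≤ (psum (gph i0) l + ph i0 p q) + (g + 1) * C0 := by
  intro g
  induction g with
  | zero =>
    intro _ l p q hn hp hq hg hlen
    obtain ⟨l', p', q', k, h1, h2, h3, h4, h5, h6, h7⟩ := stage (i0 := i0) (N := N) (K := K)
      (ρ := ρ) hn hp hq (by omega) (by omega)
    have hg0 : psum gp l = 0 := by omega
    rw [hg0] at h5 h6 h7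
    refine ⟨l', p', q', k, h1.mono le_rfl (by omega), h2, h3, h4, ?_, by omega, ?_⟩
    · rcases h7 with h7 | h7
      · exact h7
      · omega
    · rw [hC0]; omega
  | succ g ih =>
    intro hgJ l p q hn hp hq hg hlen
    have hmul1 : (g + 1 + 1) * (C0 + K * (2 * K + 8)) = (g + 1) * (C0 + K * (2 * K + 8)) +
        (C0 + K * (2 * K + 8)) := by ring
    have hmul2 : (g + 1 + 1) * C0 = (g + 1) * C0 + C0 := by ring
    have hmul3 : (g + 1 + 1) * (2 * K + 9) = (g + 1) * (2 * K + 9) + (2 * K + 9) := by ring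
    obtain ⟨l', p', q', k, h1, h2, h3, h4, h5, h6, h7⟩ := stage (i0 := i0) (N := N) (K := K)
      (ρ := ρ) hn hp hq (by omega) (by omega)
    have hcost : psum (gph i0) l' + ph i0 p' q' + k ≤ psum (gph i0) l + ph i0 p q + C0 := by
      have : 2 * (2 * K + 6) * psum gp l ≤ 2 * (2 * K + 6) * J :=
        Nat.mul_le_mul_left _ (by omega)
      rw [hC0]; omega
    have hlen' := (rel_length h1).1
    have hcase : ∃ l1 p1 q1, Rel i0 N K k (2 * K + 9) l l1 ∧ l1.Nodup ∧ l1.head? = some p1 ∧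
        l1.getLast? = some q1 ∧ l1.length = l'.length ∧
        psum (gph i0) l1 + ph i0 p1 q1 ≤ psum (gph i0) l' + ph i0 p' q' ∧
        ((Adj p1 q1 ∧ psum gp l1 = 0) ∨ psum gp l1 ≤ g) := by
      by_cases h8 : psum gp l' + 1 ≤ psum gp l
      · exact ⟨l', p', q', h1.mono le_rfl (by omega), h2, h3, h4, rfl, le_rfl, Or.inr (by omega)⟩
      · have hadj := h7.resolve_right h8
        rcases Nat.eq_zero_or_pos (psum gp l') with h9 | h9
        · exact ⟨l', p', q', h1.mono le_rfl (by omega), h2, h3, h4, rfl, le_rfl,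
            Or.inl ⟨hadj, h9⟩⟩
        · obtain ⟨l1, p1, q1, r1, r2, r3, r4, r5, r6, r7⟩ := rotate_gap (i0 := i0) (N := N)
            (K := K) h2 h3 h4 hadj h9 (by omega)
          exact ⟨l1, p1, q1, (h1.trans r1).mono (by omega) (by omega), r2, r3, r4, r7, by omega,
            Or.inr (by omega)⟩
    obtain ⟨l1, p1, q1, r1, r2, r3, r4, r5, r6, r7⟩ := hcase
    rcases r7 with ⟨r7, r8⟩ | r7
    · exact ⟨l1, p1, q1, k, r1.mono le_rfl (by omega), r2, r3, r4, r7, r8, by omega⟩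
    · obtain ⟨l2, p2, q2, k2, s1, s2, s3, s4, s5, s6, s7⟩ := ih (by omega) l1 p1 q1 r2 r3 r4 r7
        (by omega)
      refine ⟨l2, p2, q2, k + k2, (r1.trans s1).mono le_rfl (by omega), s2, s3, s4, s5, s6, ?_⟩
      omega

/-! ### interface -/

/-- cyclic consecutive pairs -/
def cpairs (l : List (Pt d)) : List (Pt d × Pt d) := l.zip (l.rotate 1)
/-- number of cyclic gaps -/
def gaps (l : List (Pt d)) : ℕ := (cpairs l).countP (fun p => decide (dist1 p.1 p.2 ≠ 1))
/-- total length of the gaps -/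
def gapLen (l : List (Pt d)) : ℕ := ((cpairs l).map (fun p => dist1 p.1 p.2 - 1)).sum

lemma zip_sum (f : Pt d → Pt d → ℕ) (r : List (Pt d)) : ∀ (p x : Pt d),
    (((p :: r).zip (r ++ [x])).map (fun w => f w.1 w.2)).sum = psum f (p :: (r ++ [x])) := by
  induction r with
  | nil => intro p x; simp
  | cons b r ih =>
    intro p x
    have h := ih b x
    simp only [List.cons_append, List.zip_cons_cons, List.map_cons, List.sum_cons,
      psum_cons_cons] at h ⊢
    rw [h]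

lemma cpairs_sum (f : Pt d → Pt d → ℕ) {l : List (Pt d)} {p q : Pt d} (hp : l.head? = some p)
    (hq : l.getLast? = some q) :
    ((cpairs l).map (fun w => f w.1 w.2)).sum = psum f l + f q p := by
  cases l with
  | nil => simp at hp
  | cons a r =>
    simp at hp; subst hp
    unfold cpairs
    have h1 : (a :: r).rotate 1 = r ++ [a] := by simp
    rw [h1, zip_sum]
    obtain ⟨B, hB⟩ : ∃ B, a :: r = B ++ [q] := by
      refine ⟨(a :: r).dropLast, ?_⟩
      rw [List.getLast?_eq_getLast_of_ne_nil (by simp)] at hq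
      have h1 := List.dropLast_append_getLast (l := a :: r) (by simp)
      rw [Option.some.inj hq] at h1
      exact h1.symm
    rw [← List.cons_append, hB]
    have h2 : B ++ [q] ++ [a] = B ++ q :: a :: [] := by simp
    rw [h2, psum_append2]
    simp

lemma psum_le_psum {f g : Pt d → Pt d → ℕ} (h : ∀ u v, f u v ≤ g u v) (l : List (Pt d)) :
    psum f l ≤ psum g l := by
  induction l with
  | nil => simp
  | cons a l ih =>
    cases l with
    | nil => simp
    | cons b l =>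
      rw [psum_cons_cons, psum_cons_cons]
      exact Nat.add_le_add (h a b) ih

lemma psum_mul (c : ℕ) (f : Pt d → Pt d → ℕ) (l : List (Pt d)) :
    psum (fun u v => c * f u v) l = c * psum f l := by
  induction l with
  | nil => simp
  | cons a l ih =>
    cases l with
    | nil => simp
    | cons b l =>
      rw [psum_cons_cons, psum_cons_cons, ih]; ring

lemma gph_le (i0 : Fin d) (u v : Pt d) : gph i0 u v ≤ 4 * (dist1 u v - 1) := by
  unfold gph
  split_ifs with h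
  · omega
  · have h1 := ph_le_dist1 i0 u v
    have h2 : dist1 u v ≠ 1 := h
    omega

lemma ph_le' (i0 : Fin d) (u v : Pt d) : ph i0 u v ≤ 4 * (dist1 u v - 1) + 2 := by
  have h1 := ph_le_dist1 i0 u v
  omega

lemma countP_eq_sum {α : Type*} (P : α → Prop) [DecidablePred P] (l : List α) :
    l.countP (fun x => decide (P x)) = (l.map (fun x => if P x then 1 else 0)).sum := by
  induction l with
  | nil => rfl
  | cons a l ih =>
    rw [List.countP_cons, List.map_cons, List.sum_cons, ih]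
    by_cases h : P a <;> simp [h, Nat.add_comm]

lemma gaps_eq {l : List (Pt d)} {p q : Pt d} (hp : l.head? = some p)
    (hq : l.getLast? = some q) : gaps l = psum gp l + gp q p := by
  rw [← cpairs_sum gp hp hq]
  unfold gaps
  rw [countP_eq_sum]
  congr 1
  apply List.map_congr_left
  intro w _
  unfold gp Adj
  split_ifs <;> simp_all

lemma gapLen_eq {l : List (Pt d)} {p q : Pt d} (hp : l.head? = some p)
    (hq : l.getLast? = some q) :
    gapLen l = psum (fun u v => dist1 u v - 1) l + (dist1 q p - 1) :=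
  cpairs_sum (fun u v => dist1 u v - 1) hp hq

lemma pot_le {l : List (Pt d)} {p q : Pt d} (hp : l.head? = some p)
    (hq : l.getLast? = some q) :
    psum (gph i0) l + ph i0 p q ≤ 4 * gapLen l + 2 := by
  rw [gapLen_eq hp hq]
  have h1 := psum_le_psum (gph_le i0) l
  rw [psum_mul 4 (fun u v => dist1 u v - 1)] at h1
  have h2 := ph_le' i0 q p
  rw [ph_comm i0 p q]
  omega

/-- the hypotheses of `closing` -/
def Hyp (N J D : ℕ) (l : List (Pt d)) : Prop :=
  l.Nodup ∧ l ≠ [] ∧ l.length ≤ N ∧ gaps l ≤ J ∧ gapLen l ≤ D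

/-- **Closing gaps.** Every cyclic gapped list with few gaps of small total length can be closed up,
with small multiplicity and small loss of adjacent pairs. -/
theorem closing (d : ℕ) (hd : 1 ≤ d) (J : ℕ) (ε : ℝ) (hε : 0 < ε) :
    ∃ C : ℕ, ∀ N D : ℕ, ∃ f : List (Pt d) → List (Pt d),
      (∀ l, Hyp N J D l →
        (f l).Nodup ∧ f l ≠ [] ∧ (∀ w ∈ cpairs (f l), Adj w.1 w.2) ∧
        ((f l).length : ℝ) ≤ l.length + (36 * (d + 1) * D + ε * N + C) ∧
        (l.length : ℝ) ≤ (f l).length + (36 * (d + 1) * D + ε * N + C) ∧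
        (nE l.toFinset : ℝ) ≤ nE (f l).toFinset + (36 * (d + 1) * D + ε * N + C) ∧
        (∀ x ∈ f l, ∃ y ∈ l, ∀ i, (|x i - y i| : ℝ) ≤ 36 * (d + 1) * D + ε * N + C)) ∧
      ∀ y, {l | Hyp N J D l ∧ f l = y}.Finite ∧
        (({l | Hyp N J D l ∧ f l = y}.ncard : ℕ) : ℝ) ≤
          Real.exp (36 * (d + 1) * D + ε * N + C) * ((N : ℝ) + D + 2) ^ C := by
  classical
  obtain ⟨M, hM⟩ : ∃ M : ℕ, M = 2 * (4 * d + 3) := ⟨_, rfl⟩
  have hM1 : 1 ≤ M := by omega
  -- small parameter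
  obtain ⟨δ, hδ0, hδ1, hδε⟩ : ∃ δ : ℝ, 0 < δ ∧ δ ≤ 1 ∧ δ ≤ ε :=
    ⟨min 1 ε, lt_min one_pos hε, min_le_left _ _, min_le_right _ _⟩
  obtain ⟨R, hR⟩ : ∃ R : ℕ, 8 * M * (J + 1) / δ ≤ (R : ℝ) := exists_nat_ge _
  have hR' : (8 * M * (J + 1) : ℝ) / (R + 1) ≤ δ := by
    rw [div_le_iff₀ (by positivity)]
    rw [div_le_iff₀ hδ0] at hR
    nlinarith
  set K : ℕ := 8 * (J + 1) + R with hK
  set C1 : ℕ := 2 * (2 * K + 6) * J + 8 * (K + 4) + 2 * K + 21 with hC1
  set C3 : ℕ := 2 + (J + 1) * (C1 + K * (2 * K + 8)) with hC3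
  set G : ℕ := (J + 1) * (2 * K + 9) with hG
  -- bound for the polynomial factor
  obtain ⟨P, hP⟩ : ∃ P : ℕ, ∀ N D : ℕ,
      2 * (3 * ((K + 1) * ((N + 4 * D + C3) / (R + 1) + 1) + K * (2 * K + 6) +
        2 * ((N + 4 * D + C3) / (R + 1) + 1) + 2 * K + 8) + 4) ≤ P * (N + D + 2) := by
    refine ⟨6 * ((K + 3) * (C3 + 5) + K * (2 * K + 6) + 2 * K + 10), ?_⟩
    intro N D
    have h1 : (N + 4 * D + C3) / (R + 1) ≤ N + 4 * D + C3 := Nat.div_le_self _ _
    set T := (N + 4 * D + C3) / (R + 1) with hT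
    have h2 : T + 1 ≤ (C3 + 5) * (N + D + 2) := by nlinarith
    have h3 : (K + 3) * (T + 1) ≤ (K + 3) * ((C3 + 5) * (N + D + 2)) := Nat.mul_le_mul_left _ h2
    have h4 : K * (2 * K + 6) + 2 * K + 10 ≤ (K * (2 * K + 6) + 2 * K + 10) * (N + D + 2) :=
      Nat.le_mul_of_pos_right _ (by omega)
    calc 2 * (3 * ((K + 1) * (T + 1) + K * (2 * K + 6) + 2 * (T + 1) + 2 * K + 8) + 4)
        ≤ 6 * ((K + 3) * (T + 1) + (K * (2 * K + 6) + 2 * K + 10)) := by nlinarith
      _ ≤ 6 * ((K + 3) * ((C3 + 5) * (N + D + 2)) +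
          (K * (2 * K + 6) + 2 * K + 10) * (N + D + 2)) := by omega
      _ = 6 * ((K + 3) * (C3 + 5) + K * (2 * K + 6) + 2 * K + 10) * (N + D + 2) := by ring
  -- the constant
  refine ⟨2 * M + M * (8 * (J + 1) + (J + 1) * C1) + C3 + 2 * K * G + G + (P + 1) * G, ?_⟩
  intro N D
  set C : ℕ := 2 * M + M * (8 * (J + 1) + (J + 1) * C1) + C3 + 2 * K * G + G + (P + 1) * G with hC
  set ρ : ℕ := (N + 4 * D + C3) / (R + 1) + 1 with hρ
  set N1 : ℕ := (K + 1) * ρ + K * (2 * K + 6) + 2 * ρ + 2 * K + 8 with hN1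
  set C0 : ℕ := 2 * (2 * K + 6) * J + 8 * (ρ + K + 4) + 2 * K + 21 with hC0
  set κ : ℕ := 4 * D + 2 + (J + 1) * C0 with hκ
  have hC01 : C0 = 8 * ρ + C1 := by rw [hC0, hC1]; ring
  have hρ1 : N + 4 * D + C3 < (R + 1) * ρ := by
    rw [hρ]; exact Nat.lt_mul_div_succ _ (by omega)
  have hρ2 : (ρ : ℝ) ≤ (N + 4 * D + C3) / (R + 1) + 1 := by
    rw [hρ]; push_cast
    have := @Nat.cast_div_le ℝ _ _ _ (N + 4 * D + C3) (R + 1)
    push_cast at this
    linarith
  -- real bound for `M κ`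
  have hcost : (M : ℝ) * κ + 2 * K * G + G ≤ 36 * (d + 1) * D + ε * N + C := by
    have e1 : (κ : ℝ) = 4 * D + 2 + (J + 1) * (8 * ρ + C1) := by
      rw [hκ, hC01]; push_cast; ring
    have e2 : (M : ℝ) * (8 * (J + 1) * ρ) ≤ δ * (N + 4 * D + C3) + M * (8 * (J + 1)) := by
      have h1 : (M : ℝ) * (8 * (J + 1) * ρ) ≤
          M * (8 * (J + 1) * ((N + 4 * D + C3) / (R + 1) + 1)) := by gcongr
      have h2 : (M : ℝ) * (8 * (J + 1) * ((N + 4 * D + C3) / (R + 1) + 1)) =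
          (8 * M * (J + 1) : ℝ) / (R + 1) * (N + 4 * D + C3) + M * (8 * (J + 1)) := by
        field_simp
      have h3 : (8 * M * (J + 1) : ℝ) / (R + 1) * (N + 4 * D + C3) ≤ δ * (N + 4 * D + C3) := by
        gcongr
      linarith
    have e3 : δ * (N + 4 * D + C3) ≤ ε * N + 4 * D + C3 := by
      have h1 : δ * N ≤ ε * N := by gcongr
      have h2 : δ * (4 * D) ≤ 1 * (4 * D) := by gcongr
      have h3 : δ * C3 ≤ 1 * C3 := by gcongr
      linarith
    have e4 : (M : ℝ) = 8 * d + 6 := by rw [hM]; push_cast; ring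
    have e5 : (C : ℝ) = 2 * M + M * (8 * (J + 1) + (J + 1) * C1) + C3 + 2 * K * G + G +
        (P + 1) * G := by rw [hC]; push_cast; ring
    have e6 : (0 : ℝ) ≤ (P + 1) * G := by positivity
    have e7 : (M : ℝ) * κ = M * (8 * (J + 1) * ρ) + 4 * M * D + 2 * M + M * ((J + 1) * C1) := by
      rw [e1]; ring
    have e8 : 4 * (M : ℝ) * D + 4 * D ≤ 36 * (d + 1) * D := by
      rw [e4]
      have : (0 : ℝ) ≤ D := Nat.cast_nonneg _
      have : (0 : ℝ) ≤ (d : ℝ) * D := by positivity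
      nlinarith
    rw [e7, e5]
    nlinarith
  let i0 : Fin d := ⟨0, hd⟩
  -- existence
  have hex : ∀ l : List (Pt d), Hyp N J D l → ∃ l' : List (Pt d), Rel i0 N1 K κ G l l' ∧
      l'.Nodup ∧ l' ≠ [] ∧ (∀ w ∈ cpairs l', Adj w.1 w.2) := by
    rintro l ⟨h1, h2, h3, h4, h5⟩
    obtain ⟨p, hp⟩ : ∃ p, l.head? = some p := by
      cases l with
      | nil => exact absurd rfl h2
      | cons a l => exact ⟨a, rfl⟩
    obtain ⟨q, hq⟩ : ∃ q, l.getLast? = some q := ⟨l.getLast h2, List.getLast?_eq_getLast_of_ne_nil h2⟩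
    have hpot := pot_le (i0 := i0) hp hq
    have hgp : psum gp l ≤ J := by
      rw [gaps_eq hp hq] at h4; omega
    have hlen : l.length + (psum (gph i0) l + ph i0 p q) + (J + 1) * (C0 + K * (2 * K + 8)) <
        (K + 1) * ρ := by
      have e1 : (J + 1) * (C0 + K * (2 * K + 8)) = 8 * (J + 1) * ρ + (C3 - 2) := by
        rw [hC01, hC3, Nat.add_sub_cancel_left]; ring
      have e2 : (K + 1) * ρ = 8 * (J + 1) * ρ + (R + 1) * ρ := by rw [hK]; ring
      rw [e1, e2]
      have e3 : 2 ≤ C3 := by rw [hC3]; omega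
      omega
    obtain ⟨l', p', q', k, g1, g2, g3, g4, g5, g6, g7⟩ := close_all (i0 := i0) (N := N1) (K := K)
      (ρ := ρ) (J := J) le_rfl C0 hC0 J le_rfl l p q h1 hp hq hgp hlen
    refine ⟨l', g1.mono (by omega) le_rfl, g2, ?_, ?_⟩
    · rintro rfl; simp at g3
    · intro w hw
      by_contra hcon
      have e1 : gaps l' = 0 := by rw [gaps_eq g3 g4, g6, gp_adj g5.symm]
      unfold gaps at e1
      rw [List.countP_eq_zero] at e1
      exact e1 w hw (by simpa [Adj] using hcon)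
  choose! F hF1 hF2 hF3 hF4 using hex
  refine ⟨F, ?_, ?_⟩
  · intro l hl
    have hr := hF1 l hl
    have r1 := rel_length hr
    have r2 := rel_nE hr
    have r3 := rel_near hr
    have hMκ : (κ : ℝ) ≤ M * κ := by
      have : (1 : ℝ) ≤ M := by exact_mod_cast hM1
      nlinarith [(Nat.cast_nonneg κ : (0 : ℝ) ≤ κ)]
    have hMκ2 : (4 * d * κ : ℝ) ≤ M * κ := by
      have : (M : ℝ) = 8 * d + 6 := by rw [hM]; push_cast; ring
      rw [this]
      nlinarith [(Nat.cast_nonneg κ : (0 : ℝ) ≤ κ), (Nat.cast_nonneg d : (0 : ℝ) ≤ d),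
        mul_nonneg (Nat.cast_nonneg d : (0 : ℝ) ≤ d) (Nat.cast_nonneg κ : (0 : ℝ) ≤ κ)]
    have hKG : (0 : ℝ) ≤ K * G := by positivity
    have hG0 : (0 : ℝ) ≤ G := by positivity
    refine ⟨hF2 l hl, hF3 l hl, hF4 l hl, ?_, ?_, ?_, ?_⟩
    · have : ((F l).length : ℝ) ≤ l.length + κ + K * G := by exact_mod_cast r1.1
      linarith
    · have : (l.length : ℝ) ≤ (F l).length + κ := by exact_mod_cast r1.2
      linarith
    · have : (nE l.toFinset : ℝ) ≤ nE (F l).toFinset + 4 * d * κ + 2 * K * G := by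
        exact_mod_cast r2
      linarith
    · intro x hx
      obtain ⟨y, hy, hxy⟩ := r3 x hx
      refine ⟨y, hy, fun i => ?_⟩
      have h1 := hxy i
      have h2 : ((|x i - y i| : ℤ) : ℝ) ≤ ((κ : ℤ) + G : ℤ) := by exact_mod_cast h1
      push_cast at h2
      have h3 : (|(x i : ℝ) - y i| : ℝ) ≤ κ + G := h2
      linarith
  · intro y
    obtain ⟨S, hS1, hS2⟩ := rel_count i0 N1 K (κ + G) κ G rfl y
    have hsub : {l | Hyp N J D l ∧ F l = y} ⊆ (S : Set (List (Pt d))) := by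
      rintro l ⟨h1, h2⟩
      have := hF1 l h1
      rw [h2] at this
      exact hS2 l this
    refine ⟨S.finite_toSet.subset hsub, ?_⟩
    have h1 : ({l | Hyp N J D l ∧ F l = y}.ncard : ℕ) ≤ S.card := by
      rw [← Set.ncard_coe_finset]
      exact Set.ncard_le_ncard hsub S.finite_toSet
    have h2 : ((S.card : ℕ) : ℝ) ≤ ((2 * (4 * d + 3) : ℕ) : ℝ) ^ κ *
        ((2 * (3 * N1 + 4) : ℕ) : ℝ) ^ G := by exact_mod_cast hS1
    have h3 : ((2 * (4 * d + 3) : ℕ) : ℝ) ^ κ ≤ Real.exp (M * κ) := by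
      have e1 : ((2 * (4 * d + 3) : ℕ) : ℝ) ≤ Real.exp M := by
        rw [← hM]
        have := Real.add_one_le_exp (M : ℝ)
        linarith
      calc ((2 * (4 * d + 3) : ℕ) : ℝ) ^ κ ≤ (Real.exp M) ^ κ := by gcongr
        _ = Real.exp (M * κ) := by rw [← Real.exp_nat_mul]; ring_nf
    have h4 : ((2 * (3 * N1 + 4) : ℕ) : ℝ) ≤ P * ((N : ℝ) + D + 2) := by
      have := hP N D
      have e1 : 2 * (3 * N1 + 4) ≤ P * (N + D + 2) := this
      exact_mod_cast e1
    have hb : (2 : ℝ) ≤ (N : ℝ) + D + 2 := by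
      have e1 : (0 : ℝ) ≤ N := Nat.cast_nonneg _
      have e2 : (0 : ℝ) ≤ D := Nat.cast_nonneg _
      linarith
    have h5 : (P : ℝ) ≤ ((N : ℝ) + D + 2) ^ P := by
      have e1 : (P : ℝ) ≤ 2 ^ P := by exact_mod_cast (Nat.lt_two_pow_self).le
      exact le_trans e1 (by gcongr)
    have h6 : ((2 * (3 * N1 + 4) : ℕ) : ℝ) ^ G ≤ ((N : ℝ) + D + 2) ^ ((P + 1) * G) := by
      have e1 : ((2 * (3 * N1 + 4) : ℕ) : ℝ) ≤ ((N : ℝ) + D + 2) ^ (P + 1) := by
        refine le_trans h4 ?_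
        rw [pow_succ]
        gcongr
      have e2 : ((N : ℝ) + D + 2) ^ ((P + 1) * G) = (((N : ℝ) + D + 2) ^ (P + 1)) ^ G :=
        pow_mul _ _ _
      rw [e2]
      exact pow_le_pow_left₀ (Nat.cast_nonneg _) e1 _
    have h7 : ((N : ℝ) + D + 2) ^ ((P + 1) * G) ≤ ((N : ℝ) + D + 2) ^ C := by
      apply pow_le_pow_right₀ (by linarith)
      rw [hC]; omega
    have hKG : (0 : ℝ) ≤ K * G := by positivity
    have hG0 : (0 : ℝ) ≤ G := by positivity
    have h8 : Real.exp (M * κ) ≤ Real.exp (36 * (d + 1) * D + ε * N + C) := by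
      apply Real.exp_le_exp.2; linarith
    calc (({l | Hyp N J D l ∧ F l = y}.ncard : ℕ) : ℝ) ≤ (S.card : ℝ) := by exact_mod_cast h1
      _ ≤ ((2 * (4 * d + 3) : ℕ) : ℝ) ^ κ * ((2 * (3 * N1 + 4) : ℕ) : ℝ) ^ G := h2
      _ ≤ Real.exp (36 * (d + 1) * D + ε * N + C) * ((N : ℝ) + D + 2) ^ C := by
          apply mul_le_mul (le_trans h3 h8) (le_trans h6 h7) (by positivity) (by positivity)

end Pool.Agent.Lib.Pff0a55C
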