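import Mathlib

set_option autoImplicit false

namespace Pool.Agent.Lib.Pff0a55C

/-- points of `ℤ^d` -/
abbrev Pt (d : ℕ) := Fin d → ℤ

variable {d : ℕ}

/-- `ℓ¹` distance -/
def dist1 (u v : Pt d) : ℕ := ∑ i, (u i - v i).natAbs

/-- nearest neighbours -/
def Adj (u v : Pt d) : Prop := dist1 u v = 1

instance : DecidableRel (Adj (d := d)) := fun u v => by unfold Adj; infer_instance

/-- perpendicular distance (all coordinates but `i0`) -/
def dp (i0 : Fin d) (u v : Pt d) : ℕ := ∑ i ∈ Finset.univ.erase i0, (u i - v i).natAbs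

/-- weighted distance used as a potential -/
def ph (i0 : Fin d) (u v : Pt d) : ℕ := 2 * (u i0 - v i0).natAbs + dp i0 u v

/-- unit vector -/
def E (i : Fin d) : Pt d := Pi.single i 1

@[simp] lemma E_same (i : Fin d) : E i i = 1 := by simp [E]
lemma E_ne {i j : Fin d} (h : j ≠ i) : E i j = 0 := by simp [E, h]

lemma dist1_eq (i0 : Fin d) (u v : Pt d) : dist1 u v = (u i0 - v i0).natAbs + dp i0 u v := by
  unfold dist1 dp
  rw [← Finset.add_sum_erase _ _ (Finset.mem_univ i0)]

lemma dist1_comm (u v : Pt d) : dist1 u v = dist1 v u := by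
  unfold dist1
  refine Finset.sum_congr rfl fun i _ => ?_
  rw [← Int.natAbs_neg]; congr 1; ring

lemma dp_comm (i0 : Fin d) (u v : Pt d) : dp i0 u v = dp i0 v u := by
  unfold dp
  refine Finset.sum_congr rfl fun i _ => ?_
  rw [← Int.natAbs_neg]; congr 1; ring

lemma ph_comm (i0 : Fin d) (u v : Pt d) : ph i0 u v = ph i0 v u := by
  unfold ph
  rw [dp_comm, ← Int.natAbs_neg]; congr 3; ring

lemma Adj.symm {u v : Pt d} (h : Adj u v) : Adj v u := by
  unfold Adj at *; rwa [dist1_comm]

lemma adj_comm (u v : Pt d) : Adj u v ↔ Adj v u := ⟨Adj.symm, Adj.symm⟩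

lemma dist1_self (u : Pt d) : dist1 u u = 0 := by simp [dist1]

lemma dp_self (i0 : Fin d) (u : Pt d) : dp i0 u u = 0 := by simp [dp]

lemma Adj.ne {u v : Pt d} (h : Adj u v) : u ≠ v := by
  rintro rfl
  simp [Adj, dist1_self] at h

lemma dp_triangle (i0 : Fin d) (u v w : Pt d) : dp i0 u w ≤ dp i0 u v + dp i0 v w := by
  unfold dp
  rw [← Finset.sum_add_distrib]
  refine Finset.sum_le_sum fun i _ => ?_
  omega

lemma dist1_triangle (u v w : Pt d) : dist1 u w ≤ dist1 u v + dist1 v w := by
  unfold dist1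
  rw [← Finset.sum_add_distrib]
  refine Finset.sum_le_sum fun i _ => ?_
  omega

lemma ph_triangle (i0 : Fin d) (u v w : Pt d) : ph i0 u w ≤ ph i0 u v + ph i0 v w := by
  have := dp_triangle i0 u v w
  unfold ph; omega

lemma dp_congr (i0 : Fin d) {u u' v v' : Pt d} (h : ∀ i, i ≠ i0 → u i = u' i)
    (h' : ∀ i, i ≠ i0 → v i = v' i) : dp i0 u v = dp i0 u' v' := by
  unfold dp
  refine Finset.sum_congr rfl fun i hi => ?_
  rw [h i (Finset.ne_of_mem_erase hi), h' i (Finset.ne_of_mem_erase hi)]

lemma dp_add_E (i0 : Fin d) (u v : Pt d) : dp i0 (u + E i0) v = dp i0 u v := by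
  apply dp_congr
  · intro i hi; simp [E_ne hi]
  · intro i _; rfl

lemma dp_sub_E (i0 : Fin d) (u v : Pt d) : dp i0 (u - E i0) v = dp i0 u v := by
  apply dp_congr
  · intro i hi; simp [E_ne hi]
  · intro i _; rfl

lemma dp_eq_zero {i0 : Fin d} {u v : Pt d} (h : dp i0 u v = 0) : ∀ i, i ≠ i0 → u i = v i := by
  intro i hi
  unfold dp at h
  rw [Finset.sum_eq_zero_iff] at h
  have := h i (Finset.mem_erase.2 ⟨hi, Finset.mem_univ _⟩)
  omega

lemma adj_cases (i0 : Fin d) {u v : Pt d} (h : Adj u v) :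
    (v = u + E i0) ∨ (v = u - E i0) ∨ (v i0 = u i0 ∧ dp i0 u v = 1) := by
  unfold Adj at h
  rw [dist1_eq i0] at h
  rcases Nat.eq_zero_or_pos (dp i0 u v) with h0 | h0
  · have h1 := dp_eq_zero h0
    have h2 : (u i0 - v i0).natAbs = 1 := by omega
    rcases Int.natAbs_eq (u i0 - v i0) with h3 | h3
    · right; left
      funext i
      by_cases hi : i = i0
      · subst hi; simp; omega
      · simp [E_ne hi, h1 i hi]
    · left
      funext i
      by_cases hi : i = i0
      · subst hi; simp; omega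
      · simp [E_ne hi, h1 i hi]
  · right; right
    constructor <;> omega

lemma adj_add_E (i0 : Fin d) (u : Pt d) : Adj u (u + E i0) := by
  unfold Adj
  rw [dist1_eq i0]
  have : dp i0 u (u + E i0) = 0 := by
    rw [dp_comm, dp_add_E, dp_self]
  rw [this]
  simp

lemma adj_sub_E (i0 : Fin d) (u : Pt d) : Adj u (u - E i0) := by
  unfold Adj
  rw [dist1_eq i0]
  have : dp i0 u (u - E i0) = 0 := by
    rw [dp_comm, dp_sub_E, dp_self]
  rw [this]
  simp

lemma adj_iff_exists {u v : Pt d} : Adj u v ↔ ∃ i, v = u + E i ∨ v = u - E i := by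
  constructor
  · intro h
    have h' := h
    unfold Adj dist1 at h
    have hex : ∃ i, (u i - v i).natAbs ≠ 0 := by
      by_contra hcon
      push Not at hcon
      simp [hcon] at h
    obtain ⟨i, hi⟩ := hex
    refine ⟨i, ?_⟩
    rcases adj_cases i h' with h1 | h1 | h1
    · exact Or.inl h1
    · exact Or.inr h1
    · exfalso; omega
  · rintro ⟨i, h | h⟩
    · rw [h]; exact adj_add_E i u
    · rw [h]; exact adj_sub_E i u

lemma dp_adj_le (i0 : Fin d) {u v : Pt d} (h : Adj u v) : dp i0 u v ≤ 1 := by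
  unfold Adj at h
  rw [dist1_eq i0] at h
  omega

lemma ph_adj_le (i0 : Fin d) {u v : Pt d} (h : Adj u v) : ph i0 u v ≤ 2 := by
  unfold Adj at h
  rw [dist1_eq i0] at h
  unfold ph
  omega

lemma dist1_le_ph (i0 : Fin d) (u v : Pt d) : dist1 u v ≤ ph i0 u v := by
  rw [dist1_eq i0]; unfold ph; omega

lemma ph_le_dist1 (i0 : Fin d) (u v : Pt d) : ph i0 u v ≤ 2 * dist1 u v := by
  rw [dist1_eq i0]; unfold ph; omega

/-- sum over consecutive pairs -/
def psum (f : Pt d → Pt d → ℕ) : List (Pt d) → ℕ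
  | [] => 0
  | [_] => 0
  | u :: v :: l => f u v + psum f (v :: l)

@[simp] lemma psum_nil (f : Pt d → Pt d → ℕ) : psum f [] = 0 := rfl
@[simp] lemma psum_single (f : Pt d → Pt d → ℕ) (u : Pt d) : psum f [u] = 0 := rfl
@[simp] lemma psum_cons_cons (f : Pt d → Pt d → ℕ) (u v : Pt d) (l : List (Pt d)) :
    psum f (u :: v :: l) = f u v + psum f (v :: l) := rfl

lemma psum_append (f : Pt d → Pt d → ℕ) (A : List (Pt d)) (z : Pt d) (B : List (Pt d)) :
    psum f (A ++ z :: B) = psum f (A ++ [z]) + psum f (z :: B) := by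
  induction A with
  | nil => simp
  | cons a A ih =>
    cases A with
    | nil => simp
    | cons b A =>
      simp only [List.cons_append, psum_cons_cons] at ih ⊢
      rw [ih]; ring

lemma psum_append2 (f : Pt d → Pt d → ℕ) (A : List (Pt d)) (a z : Pt d) (B : List (Pt d)) :
    psum f (A ++ a :: z :: B) = psum f (A ++ [a]) + f a z + psum f (z :: B) := by
  rw [psum_append, psum_cons_cons]; ring

lemma psum_reverse (f : Pt d → Pt d → ℕ) (hf : ∀ u v, f u v = f v u) (l : List (Pt d)) :
    psum f l.reverse = psum f l := by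
  induction l with
  | nil => rfl
  | cons a l ih =>
    cases l with
    | nil => rfl
    | cons b l =>
      rw [psum_cons_cons, ← ih]
      rw [List.reverse_cons, List.reverse_cons]
      rw [List.append_assoc]
      simp only [List.cons_append, List.nil_append]
      rw [psum_append2]
      simp [hf b a]; ring

/-- indicator of a gap -/
def gp (u v : Pt d) : ℕ := if Adj u v then 0 else 1
/-- potential of a gap -/
def gph (i0 : Fin d) (u v : Pt d) : ℕ := if Adj u v then 0 else ph i0 u v

lemma gp_comm (u v : Pt d) : gp u v = gp v u := by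
  unfold gp; simp only [adj_comm u v]

lemma gph_comm (i0 : Fin d) (u v : Pt d) : gph i0 u v = gph i0 v u := by
  unfold gph; simp only [adj_comm u v, ph_comm i0 u v]

lemma gp_adj {u v : Pt d} (h : Adj u v) : gp u v = 0 := by simp [gp, h]
lemma gph_adj (i0 : Fin d) {u v : Pt d} (h : Adj u v) : gph i0 u v = 0 := by simp [gph, h]
lemma gp_nadj {u v : Pt d} (h : ¬ Adj u v) : gp u v = 1 := by simp [gp, h]
lemma gph_nadj (i0 : Fin d) {u v : Pt d} (h : ¬ Adj u v) : gph i0 u v = ph i0 u v := by
  simp [gph, h]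
lemma gph_le_ph (i0 : Fin d) (u v : Pt d) : gph i0 u v ≤ ph i0 u v := by
  unfold gph; split_ifs <;> omega

/-- `u` and `v` are consecutive in `l` (in either order) -/
def Cons (l : List (Pt d)) (u v : Pt d) : Prop :=
  (∃ A B, l = A ++ u :: v :: B) ∨ (∃ A B, l = A ++ v :: u :: B)

lemma Cons.symm {l : List (Pt d)} {u v : Pt d} (h : Cons l u v) : Cons l v u := Or.symm h

lemma Cons.mem_left {l : List (Pt d)} {u v : Pt d} (h : Cons l u v) : u ∈ l := by
  rcases h with ⟨A, B, rfl⟩ | ⟨A, B, rfl⟩ <;> simp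

lemma Cons.mem_right {l : List (Pt d)} {u v : Pt d} (h : Cons l u v) : v ∈ l := h.symm.mem_left

lemma Cons.cons {l : List (Pt d)} {u v : Pt d} (h : Cons l u v) (z : Pt d) : Cons (z :: l) u v := by
  rcases h with ⟨A, B, rfl⟩ | ⟨A, B, rfl⟩
  · exact Or.inl ⟨z :: A, B, rfl⟩
  · exact Or.inr ⟨z :: A, B, rfl⟩

lemma Cons.append_right {l : List (Pt d)} {u v : Pt d} (h : Cons l u v) (B' : List (Pt d)) :
    Cons (l ++ B') u v := by
  rcases h with ⟨A, B, rfl⟩ | ⟨A, B, rfl⟩
  · exact Or.inl ⟨A, B ++ B', by simp⟩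
  · exact Or.inr ⟨A, B ++ B', by simp⟩

lemma Cons.append_left {l : List (Pt d)} {u v : Pt d} (h : Cons l u v) (A' : List (Pt d)) :
    Cons (A' ++ l) u v := by
  rcases h with ⟨A, B, rfl⟩ | ⟨A, B, rfl⟩
  · exact Or.inl ⟨A' ++ A, B, by simp⟩
  · exact Or.inr ⟨A' ++ A, B, by simp⟩

lemma Cons.reverse {l : List (Pt d)} {u v : Pt d} (h : Cons l u v) : Cons l.reverse u v := by
  rcases h with ⟨A, B, rfl⟩ | ⟨A, B, rfl⟩
  · exact Or.inr ⟨B.reverse, A.reverse, by simp⟩
  · exact Or.inl ⟨B.reverse, A.reverse, by simp⟩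

lemma cons_first (u v : Pt d) (l : List (Pt d)) : Cons (u :: v :: l) u v := Or.inl ⟨[], l, rfl⟩

lemma not_cons_nil {u v : Pt d} : ¬ Cons ([] : List (Pt d)) u v := by
  rintro (⟨A, B, h⟩ | ⟨A, B, h⟩) <;> simp at h

/-- split of a consecutive pair over a cons -/
lemma cons_cons_iff {p u v : Pt d} {l : List (Pt d)} :
    Cons (p :: l) u v ↔ (p = u ∧ l.head? = some v) ∨ (p = v ∧ l.head? = some u) ∨ Cons l u v := by
  constructor
  · rintro (⟨A, B, h⟩ | ⟨A, B, h⟩)
    · cases A with
      | nil => simp at h; obtain ⟨h1, h2⟩ := h; left; simp [h1, h2]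
      | cons a A =>
        simp at h; obtain ⟨h1, h2⟩ := h
        right; right; left; exact ⟨A, B, h2⟩
    · cases A with
      | nil => simp at h; obtain ⟨h1, h2⟩ := h; right; left; simp [h1, h2]
      | cons a A =>
        simp at h; obtain ⟨h1, h2⟩ := h
        right; right; right; exact ⟨A, B, h2⟩
  · rintro (⟨rfl, h⟩ | ⟨rfl, h⟩ | h)
    · cases l with
      | nil => simp at h
      | cons b l => simp at h; subst h; exact Or.inl ⟨[], l, rfl⟩
    · cases l with
      | nil => simp at h
      | cons b l => simp at h; subst h; exact Or.inr ⟨[], l, rfl⟩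
    · exact h.cons p

/-- the neighbours of a vertex of a nodup list -/
lemma cons_nbr {A B : List (Pt d)} {z u : Pt d} (hnd : (A ++ z :: B).Nodup)
    (h : Cons (A ++ z :: B) u z) : A.getLast? = some u ∨ B.head? = some u := by
  induction A with
  | nil =>
    simp only [List.nil_append] at hnd h
    rw [cons_cons_iff] at h
    rcases h with ⟨h1, h2⟩ | ⟨_, h2⟩ | h2
    · subst h1
      exfalso
      have : z ∈ B := by
        cases B with
        | nil => simp at h2
        | cons b B => simp at h2; simp [h2]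
      exact (List.nodup_cons.1 hnd).1 this
    · exact Or.inr h2
    · exact absurd h2.mem_right (List.nodup_cons.1 hnd).1
  | cons a A ih =>
    simp only [List.cons_append] at hnd h
    rw [cons_cons_iff] at h
    have hnd' := List.nodup_cons.1 hnd
    rcases h with ⟨h1, h2⟩ | ⟨h1, h2⟩ | h2
    · subst h1
      cases A with
      | nil => left; rfl
      | cons b A =>
        exfalso
        simp at h2
        subst h2
        simp at hnd'
    · subst h1
      exfalso
      apply hnd'.1; simp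
    · rcases ih hnd'.2 h2 with h3 | h3
      · left
        cases A with
        | nil => simp at h3
        | cons b A => rw [List.getLast?_cons_cons]; exact h3
      · exact Or.inr h3

end Pool.Agent.Lib.Pff0a55C
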