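import Pool.Agent.Lib.Pff0a55C.Ops

set_option autoImplicit false

namespace Pool.Agent.Lib.Pff0a55C

variable {d : ℕ}

/-- the three kinds of moves of the head -/
lemma move_cases {l : List (Pt d)} {p z q : Pt d} (hn : l.Nodup) (hp : l.head? = some p)
    (hq : l.getLast? = some q) (hz : Adj p z) (hpq : ¬ Adj p q) :
    (z ∉ l ∧ ∃ r, l = p :: r) ∨ (∃ B, l = p :: z :: B) ∨
      (∃ A a B, l = p :: (A ++ a :: z :: B) ∧ q ∈ B) := by
  cases l with
  | nil => simp at hp
  | cons p' r =>
    simp at hp
    subst hp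
    by_cases hzl : z ∈ p' :: r
    · right
      rcases List.mem_cons.1 hzl with h | h
      · exact absurd h.symm hz.ne
      · obtain ⟨A, B, rfl⟩ := List.append_of_mem h
        have hzq : z ≠ q := by rintro rfl; exact hpq hz
        rcases List.eq_nil_or_concat A with hA | ⟨A', a, hA⟩
        · subst hA; left; exact ⟨B, rfl⟩
        · right
          subst hA
          refine ⟨A', a, B, by simp, ?_⟩
          have h1 : (p' :: (A' ++ [a] ++ z :: B)).getLast? = (z :: B).getLast? := by
            rw [← List.cons_append, List.getLast?_append]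
            simp [List.getLast?_cons]
          rw [List.concat_eq_append, h1] at hq
          cases B with
          | nil => simp at hq; exact absurd hq hzq
          | cons b B =>
            rw [List.getLast?_cons_cons] at hq
            exact List.mem_of_getLast? hq
    · left; exact ⟨hzl, r, rfl⟩

lemma rev_psum (f : Pt d → Pt d → ℕ) (hf : ∀ u v, f u v = f v u) (p : Pt d)
    (A : List (Pt d)) (a z : Pt d) (B : List (Pt d)) :
    psum f (a :: ((p :: A).reverse ++ z :: B)) + f a z =
      psum f (p :: (A ++ a :: z :: B)) + f p z := by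
  have h1 : a :: ((p :: A).reverse ++ z :: B) = (a :: A.reverse) ++ p :: z :: B := by simp
  have h2 : p :: (A ++ a :: z :: B) = (p :: A) ++ a :: z :: B := by simp
  rw [h1, h2, psum_append2, psum_append2]
  have h3 : (a :: A.reverse) ++ [p] = ((p :: A) ++ [a]).reverse := by simp
  rw [h3, psum_reverse f hf]
  omega

lemma rev_cons {p : Pt d} {A : List (Pt d)} {a z : Pt d} {B : List (Pt d)} {u v : Pt d}
    (h : Cons (p :: (A ++ a :: z :: B)) u v) (h1 : ¬ (u = a ∧ v = z)) (h2 : ¬ (u = z ∧ v = a)) :
    Cons (a :: ((p :: A).reverse ++ z :: B)) u v := by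
  have e1 : a :: ((p :: A).reverse ++ z :: B) = (p :: A ++ [a]).reverse ++ z :: B := by simp
  rw [e1]
  have key : ∀ (C : List (Pt d)) (u v : Pt d), Cons (C ++ a :: z :: B) u v → ¬ (u = a ∧ v = z) →
      ¬ (u = z ∧ v = a) → Cons (C ++ [a]) u v ∨ Cons (z :: B) u v := by
    intro C
    induction C with
    | nil =>
      intro u v h h1 h2
      simp only [List.nil_append] at h
      rw [cons_cons_iff] at h
      rcases h with ⟨h3, h4⟩ | ⟨h3, h4⟩ | h3
      · simp at h4; exact absurd ⟨h3.symm, h4.symm⟩ h1
      · simp at h4; exact absurd ⟨h4.symm, h3.symm⟩ h2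
      · right; exact h3
    | cons x C ih =>
      intro u v h h1 h2
      rw [List.cons_append, cons_cons_iff] at h
      rcases h with ⟨h3, h4⟩ | ⟨h3, h4⟩ | h3
      · left
        rw [List.cons_append, cons_cons_iff]
        left
        refine ⟨h3, ?_⟩
        cases C with
        | nil => simp at h4 ⊢; exact h4
        | cons y C => simp at h4 ⊢; exact h4
      · left
        rw [List.cons_append, cons_cons_iff]
        right; left
        refine ⟨h3, ?_⟩
        cases C with
        | nil => simp at h4 ⊢; exact h4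
        | cons y C => simp at h4 ⊢; exact h4
      · rcases ih u v h3 h1 h2 with h4 | h4
        · left; rw [List.cons_append]; exact h4.cons x
        · right; exact h4
  have h' : Cons ((p :: A) ++ a :: z :: B) u v := by simpa using h
  rcases key _ _ _ h' h1 h2 with h3 | h3
  · exact h3.reverse.append_right _
  · exact h3.append_left _

lemma rev_getLast? (p : Pt d) (A : List (Pt d)) (a z : Pt d) (B : List (Pt d)) :
    (a :: ((p :: A).reverse ++ z :: B)).getLast? = (p :: (A ++ a :: z :: B)).getLast? := by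
  have h1 : a :: ((p :: A).reverse ++ z :: B) = (a :: (p :: A).reverse) ++ z :: B := by simp
  have h2 : p :: (A ++ a :: z :: B) = (p :: (A ++ [a])) ++ z :: B := by simp
  rw [h1, h2, List.getLast?_append, List.getLast?_append]
  simp [List.getLast?_cons]

lemma rev_perm (p : Pt d) (A : List (Pt d)) (a z : Pt d) (B : List (Pt d)) :
    (a :: ((p :: A).reverse ++ z :: B)).Perm (p :: (A ++ a :: z :: B)) := by
  have e1 : (a :: ((p :: A).reverse ++ z :: B)) = ((p :: A) ++ [a]).reverse ++ z :: B := by simp
  have e2 : p :: (A ++ a :: z :: B) = ((p :: A) ++ [a]) ++ z :: B := by simp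
  rw [e1, e2]
  exact (List.reverse_perm _).append_right _

lemma ph_congr_dp {i0 : Fin d} {u z v : Pt d} : dp i0 u v ≤ dp i0 u z + dp i0 z v :=
  dp_triangle i0 u z v

variable (i0 : Fin d)

/-- invariant of the drive phase -/
structure DInv (c : ℤ) (W : ℕ) (q p : Pt d) (l : List (Pt d)) : Prop where
  nodup : l.Nodup
  head : l.head? = some p
  last : l.getLast? = some q
  ls : LS i0 c W {p, q} l
  endp : c < p i0 → p i0 ≤ c + W → Cons l (p - E i0) p ∨ Cons l p (p + E i0)

lemma E_ne_zero : (E i0 : Pt d) ≠ 0 := by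
  intro h; have := congrFun h i0; simp at this

lemma add_E_ne (x : Pt d) : x + E i0 ≠ x := by
  intro h; have := congrFun h i0; simp at this

lemma add_E_E_ne (x : Pt d) : x + E i0 + E i0 ≠ x := by
  intro h; have := congrFun h i0; simp at this; omega

variable {i0}

lemma DInv.ext {c : ℤ} {W : ℕ} {q p : Pt d} {l : List (Pt d)} (h : DInv i0 c W q p l)
    (hz : p + E i0 ∉ l) : DInv i0 c W q (p + E i0) ((p + E i0) :: l) := by
  obtain ⟨h1, h2, h3, h4, h5⟩ := h
  cases l with
  | nil => simp at h2
  | cons p' r =>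
    simp at h2; subst h2
    refine ⟨List.nodup_cons.2 ⟨hz, h1⟩, rfl, ?_, ?_, ?_⟩
    · rw [List.getLast?_cons_cons]; exact h3
    · intro x hx hx1 hx2 hx3
      simp only [Set.mem_insert_iff, Set.mem_singleton_iff, not_or] at hx3
      have hx' := (List.mem_cons.1 hx).resolve_left hx3.1
      by_cases hxp : x = p'
      · subst hxp
        constructor
        · rcases h5 hx1 hx2 with h6 | h6
          · exact h6.cons _
          · exact absurd h6.mem_right hz
        · exact (cons_first _ _ _).symm
      · obtain ⟨h6, h7⟩ := h4 x hx' hx1 hx2 (by simp; exact ⟨hxp, hx3.2⟩)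
        exact ⟨h6.cons _, h7.cons _⟩
    · intro _ _
      left
      have : p' + E i0 - E i0 = p' := by simp
      rw [this]
      exact (cons_first _ _ _).symm

lemma DInv.del {c : ℤ} {W : ℕ} {q p : Pt d} {B : List (Pt d)}
    (h : DInv i0 c W q p (p :: (p + E i0) :: B)) (hpq : p + E i0 ≠ q) :
    DInv i0 c W q (p + E i0) ((p + E i0) :: B) := by
  obtain ⟨h1, h2, h3, h4, h5⟩ := h
  have hn := List.nodup_cons.1 h1
  refine ⟨hn.2, rfl, ?_, ?_, ?_⟩
  · rw [List.getLast?_cons_cons] at h3; exact h3
  · intro x hx hx1 hx2 hx3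
    simp only [Set.mem_insert_iff, Set.mem_singleton_iff, not_or] at hx3
    have hxp : x ≠ p := by rintro rfl; exact hn.1 hx
    obtain ⟨h6, h7⟩ := h4 x (List.mem_cons_of_mem _ hx) hx1 hx2 (by simp; exact ⟨hxp, hx3.2⟩)
    constructor
    · rw [cons_cons_iff] at h6
      rcases h6 with ⟨_, h6⟩ | ⟨h6, _⟩ | h6
      · simp at h6; exact absurd h6.symm hx3.1
      · exact absurd h6.symm hxp
      · exact h6
    · rw [cons_cons_iff] at h7
      rcases h7 with ⟨h7, _⟩ | ⟨_, h7⟩ | h7
      · exact absurd h7.symm hxp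
      · simp at h7; exact absurd h7.symm hx3.1
      · exact h7
  · intro hz1 hz2
    right
    obtain ⟨_, h7⟩ := h4 (p + E i0) (by simp) hz1 hz2 (by simp; exact ⟨E_ne_zero i0, hpq⟩)
    rw [cons_cons_iff] at h7
    rcases h7 with ⟨h7, _⟩ | ⟨h7, _⟩ | h7
    · exact absurd h7.symm (add_E_ne i0 p)
    · exact absurd h7.symm (add_E_E_ne i0 p)
    · exact h7

lemma DInv.rev_level {c : ℤ} {W : ℕ} {q p : Pt d} {A : List (Pt d)} {a : Pt d} {B : List (Pt d)}
    (h : DInv i0 c W q p (p :: (A ++ a :: (p + E i0) :: B))) (hpq : p + E i0 ≠ q)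
    (hW : p i0 + 1 ≤ c + W) : (p + E i0) i0 ≤ c := by
  obtain ⟨h1, h2, h3, h4, h5⟩ := h
  by_contra hcon
  push Not at hcon
  obtain ⟨h6, _⟩ := h4 (p + E i0) (by simp) hcon (by simpa using hW)
    (by simp; exact ⟨E_ne_zero i0, hpq⟩)
  have h7 : p + E i0 - E i0 = p := by simp
  rw [h7, cons_cons_iff] at h6
  have hn := List.nodup_cons.1 h1
  rcases h6 with ⟨_, h6⟩ | ⟨h6, _⟩ | h6
  · cases A with
    | nil =>
      simp at h6
      have := hn.2
      simp [h6] at this
    | cons x A =>
      simp at h6
      have := hn.2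
      simp [h6] at this
  · exact add_E_ne i0 p h6.symm
  · exact hn.1 h6.mem_left

lemma DInv.rev {c : ℤ} {W : ℕ} {q p : Pt d} {A : List (Pt d)} {a : Pt d} {B : List (Pt d)}
    (h : DInv i0 c W q p (p :: (A ++ a :: (p + E i0) :: B))) (hpq : p + E i0 ≠ q)
    (hqB : q ∈ B)
    (hW : p i0 + 1 ≤ c + W) (ha : Adj a (p + E i0)) :
    DInv i0 c W q a (a :: ((p :: A).reverse ++ (p + E i0) :: B)) := by
  have hlev := h.rev_level hpq hW
  obtain ⟨h1, h2, h3, h4, h5⟩ := h
  have hn := List.nodup_cons.1 h1
  have hperm : (a :: ((p :: A).reverse ++ (p + E i0) :: B)).Perm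
      (p :: (A ++ a :: (p + E i0) :: B)) := by
    have e1 : (a :: ((p :: A).reverse ++ (p + E i0) :: B)) =
        ((p :: A) ++ [a]).reverse ++ (p + E i0) :: B := by simp
    have e2 : p :: (A ++ a :: (p + E i0) :: B) = ((p :: A) ++ [a]) ++ (p + E i0) :: B := by simp
    rw [e1, e2]
    exact (List.reverse_perm _).append_right _
  have hap : a ≠ p := by
    rintro rfl; apply hn.1; simp
  have haq : a ≠ q := by
    rintro rfl
    have := (List.nodup_append.1 hn.2).2.1
    rw [List.nodup_cons] at this
    apply this.1; simp [hqB]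
  have hpc : p i0 + 1 ≤ c := by simpa using hlev
  refine ⟨hperm.nodup_iff.2 h1, rfl, ?_, ?_, ?_⟩
  · rw [rev_getLast?]; exact h3
  · intro x hx hx1 hx2 hx3
    simp only [Set.mem_insert_iff, Set.mem_singleton_iff, not_or] at hx3
    have hxl := hperm.mem_iff.1 hx
    have hxp : x ≠ p := by rintro rfl; omega
    have hxz : x ≠ p + E i0 := by rintro rfl; omega
    obtain ⟨h6, h7⟩ := h4 x hxl hx1 hx2 (by simp; exact ⟨hxp, hx3.2⟩)
    constructor
    · apply rev_cons h6
      · rintro ⟨_, h8⟩; exact hxz h8
      · rintro ⟨_, h8⟩; exact hx3.1 h8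
    · apply rev_cons h7
      · rintro ⟨h8, _⟩; exact hx3.1 h8
      · rintro ⟨h8, _⟩; exact hxz h8
  · intro ha1 ha2
    right
    obtain ⟨_, h7⟩ := h4 a (by simp) ha1 ha2 (by simp; exact ⟨hap, haq⟩)
    apply rev_cons h7
    · rintro ⟨_, h8⟩
      have := congrFun h8 i0
      simp at this; omega
    · rintro ⟨h8, _⟩
      rw [h8] at ha1; omega

/-- number of cells in a layer -/
def lay (i0 : Fin d) (c : ℤ) (l : List (Pt d)) : ℕ := (l.toFinset.filter (fun x => x i0 = c)).card

lemma lay_perm {c : ℤ} {l l' : List (Pt d)} (h : l.Perm l') : lay i0 c l = lay i0 c l' := by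
  unfold lay; rw [List.toFinset_eq_of_perm _ _ h]

lemma lay_cons_le {c : ℤ} (z : Pt d) (l : List (Pt d)) :
    lay i0 c (z :: l) ≤ lay i0 c l + (if z i0 = c then 1 else 0) := by
  unfold lay
  rw [List.toFinset_cons, Finset.filter_insert]
  split_ifs with h
  · exact Finset.card_insert_le _ _
  · simp

lemma lay_le_cons {c : ℤ} (z : Pt d) (l : List (Pt d)) :
    lay i0 c l ≤ lay i0 c (z :: l) := by
  unfold lay
  apply Finset.card_le_card
  intro x hx
  simp only [Finset.mem_filter, List.mem_toFinset, List.mem_cons] at hx ⊢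
  exact ⟨Or.inr hx.1, hx.2⟩

/-- the drive phase -/
lemma drive {N K : ℕ} {c : ℤ} {W : ℕ} {q : Pt d} (t : ℤ) (ht1 : c + 1 ≤ t) (ht2 : t ≤ c + W) :
    ∀ n : ℕ, ∀ l p, DInv i0 c W q p l → t - p i0 ≤ n → p i0 ≤ t → l.length + n ≤ N →
    ∃ l' p' z k, Rel i0 N K k 1 l l' ∧ l'.Nodup ∧ l'.head? = some p' ∧ l'.getLast? = some q ∧
      p i0 + (k : ℤ) ≤ z i0 ∧ z i0 ≤ t ∧ dp i0 p z ≤ k ∧
      psum (gph i0) l' + ph i0 p' q ≤ psum (gph i0) l + ph i0 z q ∧
      psum gp l' ≤ psum gp l ∧
      lay i0 (c + 1) l' ≤ lay i0 (c + 1) l + (if p i0 ≤ c then 1 else 0) ∧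
      (Adj p' q ∨ psum gp l' + 1 ≤ psum gp l ∨ (DInv i0 c W q p' l' ∧ p' i0 = t)) := by
  intro n
  induction n with
  | zero =>
    intro l p h h1 h2 _
    refine ⟨l, p, p, 0, (Rel.refl l).mono le_rfl (by omega), h.nodup, h.head, h.last, by simp,
      h2, by simp [dp_self], le_rfl, le_rfl, by omega, Or.inr (Or.inr ⟨h, ?_⟩)⟩
    push_cast at h1; omega
  | succ n ih =>
    intro l p h h1 h2 hN
    by_cases hpt : p i0 = t
    · exact ⟨l, p, p, 0, (Rel.refl l).mono le_rfl (by omega), h.nodup, h.head, h.last, by simp,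
        h2, by simp [dp_self], le_rfl, le_rfl, by omega, Or.inr (Or.inr ⟨h, hpt⟩)⟩
    have hlt : p i0 < t := lt_of_le_of_ne h2 hpt
    by_cases hpq : Adj p q
    · exact ⟨l, p, p, 0, (Rel.refl l).mono le_rfl (by omega), h.nodup, h.head, h.last, by simp,
        h2, by simp [dp_self], le_rfl, le_rfl, by omega, Or.inl hpq⟩
    have hzadj : Adj p (p + E i0) := adj_add_E i0 p
    have hzq : p + E i0 ≠ q := by intro hcon; rw [← hcon] at hpq; exact hpq hzadj
    have hdz : dp i0 p (p + E i0) = 0 := by rw [dp_comm, dp_add_E, dp_self]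
    rcases move_cases h.nodup h.head h.last hzadj hpq with ⟨hz, r, hr⟩ | ⟨B, hB⟩ | ⟨A, a, B, hB, hqB⟩
    · -- extension
      have hinv := h.ext hz
      obtain ⟨l', p', z, k, g1, g2, g3, g4, g5, g6, g7, g8, g9, glay, g10⟩ :=
        ih ((p + E i0) :: l) (p + E i0) hinv (by simp; push_cast at h1; omega)
          (by simp; omega) (by simp; omega)
      have hc : Cheap l ((p + E i0) :: l) := by
        rw [hr] at hz ⊢; exact Cheap.ext _ _ _ hzadj hz
      have hps : ∀ f : Pt d → Pt d → ℕ, f (p + E i0) p = 0 → psum f ((p + E i0) :: l) = psum f l := by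
        intro f hf; rw [hr, psum_cons_cons, hf]; simp
      refine ⟨l', p', z, k + 1, ?_, g2, g3, g4, ?_, g6, ?_, ?_, ?_, ?_, ?_⟩
      · have := (Rel.of_cheap (i0 := i0) (N := N) (K := K) hc).trans g1
        exact this.mono (by omega) (by omega)
      · simp at g5; push_cast; omega
      · have := dp_triangle i0 p (p + E i0) z
        omega
      · rw [hps _ (gph_adj i0 hzadj.symm)] at g8; exact g8
      · rw [hps _ (gp_adj hzadj.symm)] at g9; exact g9
      · have hl := lay_cons_le (i0 := i0) (c := c + 1) (p + E i0) l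
        have hz0 : (p + E i0) i0 = p i0 + 1 := by simp
        rw [hz0] at hl glay
        split_ifs at hl glay ⊢ <;> omega
      · rw [hps _ (gp_adj hzadj.symm)] at g10; exact g10
    · -- deletion
      subst hB
      have hinv := h.del hzq
      obtain ⟨l', p', z, k, g1, g2, g3, g4, g5, g6, g7, g8, g9, glay, g10⟩ :=
        ih ((p + E i0) :: B) (p + E i0) hinv (by simp; push_cast at h1; omega)
          (by simp; omega) (by simp at hN ⊢; omega)
      have hc : Cheap (p :: (p + E i0) :: B) ((p + E i0) :: B) := Cheap.del _ _ _ hzadj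
      have hps : ∀ f : Pt d → Pt d → ℕ, f p (p + E i0) = 0 →
          psum f (p :: (p + E i0) :: B) = psum f ((p + E i0) :: B) := by
        intro f hf; rw [psum_cons_cons, hf]; simp
      refine ⟨l', p', z, k + 1, ?_, g2, g3, g4, ?_, g6, ?_, ?_, ?_, ?_, ?_⟩
      · have := (Rel.of_cheap (i0 := i0) (N := N) (K := K) hc).trans g1
        exact this.mono (by omega) (by omega)
      · simp at g5; push_cast; omega
      · have := dp_triangle i0 p (p + E i0) z
        omega
      · rw [hps _ (gph_adj i0 hzadj)]; exact g8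
      · rw [hps _ (gp_adj hzadj)]; exact g9
      · have hl := lay_le_cons (i0 := i0) (c := c + 1) p ((p + E i0) :: B)
        have hz0 : (p + E i0) i0 = p i0 + 1 := by simp
        rw [hz0] at glay
        split_ifs at glay ⊢ <;> omega
      · rw [hps _ (gp_adj hzadj)]; exact g10
    · -- reversal
      subst hB
      have hlev := h.rev_level hzq (by omega)
      have hgp := rev_psum gp gp_comm p A a (p + E i0) B
      have hgph := rev_psum (gph i0) (gph_comm i0) p A a (p + E i0) B
      rw [gp_adj hzadj] at hgp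
      rw [gph_adj i0 hzadj] at hgph
      by_cases haz : Adj a (p + E i0)
      · have hinv := h.rev hzq hqB (by omega) haz
        have hap : a ≠ p := by
          rintro rfl
          exact (List.nodup_cons.1 h.nodup).1 (by simp)
        have hdpa : dp i0 p a ≤ 1 := by
          have h6 := dp_triangle i0 p (p + E i0) a
          have h7 := dp_adj_le i0 haz.symm
          omega
        have hlow : p i0 + 1 ≤ a i0 ∧ a i0 ≤ t := by
          have hz0 : (p + E i0) i0 = p i0 + 1 := by simp
          rcases adj_cases i0 haz.symm with h6 | h6 | ⟨h6, _⟩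
          · rw [h6]; simp; simp at hlev; omega
          · exfalso; apply hap; rw [h6]; simp
          · rw [h6, hz0]; omega
        obtain ⟨l', p', z, k, g1, g2, g3, g4, g5, g6, g7, g8, g9, glay, g10⟩ :=
          ih _ a hinv (by push_cast at h1; omega) hlow.2 (by simp at hN ⊢; omega)
        have hc : Cheap (p :: (A ++ a :: (p + E i0) :: B))
            (a :: ((p :: A).reverse ++ (p + E i0) :: B)) :=
          Cheap.rev (p :: A) a (p + E i0) B haz h.nodup
        rw [gp_adj haz] at hgp
        rw [gph_adj i0 haz] at hgph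
        have hperm := rev_perm p A a (p + E i0) B
        refine ⟨l', p', z, k + 1, ?_, g2, g3, g4, ?_, g6, ?_, ?_, ?_, ?_, ?_⟩
        · have := (Rel.of_cheap (i0 := i0) (N := N) (K := K) hc).trans g1
          exact this.mono (by omega) (by omega)
        · push_cast; omega
        · have := dp_triangle i0 p a z
          omega
        · omega
        · omega
        · rw [lay_perm hperm] at glay
          split_ifs at glay ⊢ <;> omega
        · rcases g10 with g10 | g10 | g10
          · exact Or.inl g10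
          · right; left; omega
          · right; right; exact g10
      · -- merge
        rw [gp_nadj haz] at hgp
        rw [gph_nadj i0 haz] at hgph
        have hex : Exp i0 N K (p :: (A ++ a :: (p + E i0) :: B))
            (a :: ((p :: A).reverse ++ (p + E i0) :: B)) := by
          have e1 : (a :: ((p :: A).reverse ++ (p + E i0) :: B)) =
              ((p :: A) ++ [a]).reverse ++ (p + E i0) :: B := by simp
          have e2 : p :: (A ++ a :: (p + E i0) :: B) = ((p :: A) ++ [a]) ++ (p + E i0) :: B := by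
            simp
          rw [e1, e2]
          apply Exp.rev
          rw [← e2]; omega
        refine ⟨_, a, p + E i0, 0, Rel.of_exp hex, exp_nodup hex h.nodup, rfl, ?_, ?_, ?_, ?_,
          ?_, ?_, ?_, ?_⟩
        · rw [rev_getLast?]; exact h.last
        · simp
        · simp; omega
        · omega
        · have := ph_triangle i0 a (p + E i0) q
          omega
        · omega
        · rw [lay_perm (rev_perm p A a (p + E i0) B)]; omega
        · right; left; omega

end Pool.Agent.Lib.Pff0a55C
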