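import Pool.Agent.Lib.Pff0a55C.Basic

set_option autoImplicit false

namespace Pool.Agent.Lib.Pff0a55C

variable {d : ℕ}

/-- ordered adjacent pairs inside a finite set -/
def nE (S : Finset (Pt d)) : ℕ := ((S ×ˢ S).filter (fun p => Adj p.1 p.2)).card

/-- shift the half space `x i0 > c` by one -/
def sh (i0 : Fin d) (c : ℤ) (x : Pt d) : Pt d := if x i0 ≤ c then x else x + E i0
/-- inverse of the shift -/
def unsh (i0 : Fin d) (c : ℤ) (x : Pt d) : Pt d := if x i0 ≤ c then x else x - E i0
/-- the inserted cell of a crossing edge -/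
def mid (i0 : Fin d) (c : ℤ) (u v : Pt d) : List (Pt d) :=
  if u i0 = c ∧ v = u + E i0 then [v] else if v i0 = c ∧ u = v + E i0 then [u] else []
/-- insertion of an empty layer after layer `c` -/
def ins (i0 : Fin d) (c : ℤ) : List (Pt d) → List (Pt d)
  | [] => []
  | [u] => [sh i0 c u]
  | u :: v :: l => sh i0 c u :: (mid i0 c u v ++ ins i0 c (v :: l))

variable (i0 : Fin d) (c : ℤ)

lemma sh_le {x : Pt d} (h : x i0 ≤ c) : sh i0 c x = x := by simp [sh, h]
lemma sh_gt {x : Pt d} (h : c < x i0) : sh i0 c x = x + E i0 := by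
  simp [sh, not_le.2 h]

lemma sh_ne (x : Pt d) : (sh i0 c x) i0 ≠ c + 1 := by
  by_cases h : x i0 ≤ c
  · rw [sh_le i0 c h]; omega
  · rw [sh_gt i0 c (not_le.1 h)]; simp; omega

lemma unsh_sh (x : Pt d) : unsh i0 c (sh i0 c x) = x := by
  by_cases h : x i0 ≤ c
  · rw [sh_le i0 c h]; simp [unsh, h]
  · rw [sh_gt i0 c (not_le.1 h)]
    have h2 : ¬ ((x + E i0) i0 ≤ c) := by simp; omega
    simp only [unsh, if_neg h2]; simp

lemma sh_inj : Function.Injective (sh i0 c) := Function.LeftInverse.injective (unsh_sh i0 c)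

lemma mem_mid {u v x : Pt d} (h : x ∈ mid i0 c u v) :
    x i0 = c + 1 ∧ ((x = v ∧ u = x - E i0) ∨ (x = u ∧ v = x - E i0)) := by
  unfold mid at h
  split_ifs at h with h1 h2
  · simp at h; subst h
    obtain ⟨h1, h2⟩ := h1
    refine ⟨by rw [h2]; simp [h1], Or.inl ⟨rfl, by rw [h2]; simp⟩⟩
  · simp at h; subst h
    obtain ⟨h1, h3⟩ := h2
    refine ⟨by rw [h3]; simp [h1], Or.inr ⟨rfl, by rw [h3]; simp⟩⟩
  · simp at h

lemma mid_nodup (u v : Pt d) : (mid i0 c u v).Nodup := by
  unfold mid; split_ifs <;> simp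

lemma ins_head (u : Pt d) (l : List (Pt d)) : ∃ r, ins i0 c (u :: l) = sh i0 c u :: r := by
  cases l with
  | nil => exact ⟨[], rfl⟩
  | cons v l => exact ⟨_, rfl⟩

lemma ins_append (A : List (Pt d)) (z : Pt d) (B : List (Pt d)) :
    ∃ A', ins i0 c (A ++ z :: B) = A' ++ ins i0 c (z :: B) := by
  induction A with
  | nil => exact ⟨[], rfl⟩
  | cons a A ih =>
    obtain ⟨A', hA'⟩ := ih
    cases A with
    | nil => exact ⟨sh i0 c a :: mid i0 c a z, by simp [ins]⟩
    | cons b A =>
      refine ⟨sh i0 c a :: (mid i0 c a b ++ A'), ?_⟩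
      simp only [List.cons_append] at hA' ⊢
      simp only [ins, hA', List.append_assoc]

lemma ins_filter (l : List (Pt d)) :
    (ins i0 c l).filter (fun x => decide (x i0 ≠ c + 1)) = l.map (sh i0 c) := by
  induction l with
  | nil => rfl
  | cons a l ih =>
    cases l with
    | nil => simp [ins, sh_ne]
    | cons b l =>
      simp only [ins]
      rw [List.filter_cons_of_pos (by simp [sh_ne]), List.filter_append, ih]
      have : (mid i0 c a b).filter (fun x => decide (x i0 ≠ c + 1)) = [] := by
        rw [List.filter_eq_nil_iff]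
        intro x hx
        simp [(mem_mid i0 c hx).1]
      rw [this]; simp

/-- the inverse of `ins` -/
def unins (l : List (Pt d)) : List (Pt d) :=
  (l.filter (fun x => decide (x i0 ≠ c + 1))).map (unsh i0 c)

lemma unins_ins (l : List (Pt d)) : unins i0 c (ins i0 c l) = l := by
  unfold unins
  rw [ins_filter, List.map_map]
  have : (unsh i0 c) ∘ (sh i0 c) = id := by funext x; exact unsh_sh i0 c x
  rw [this, List.map_id]

lemma mem_ins {l : List (Pt d)} {x : Pt d} (h : x ∈ ins i0 c l) :
    (∃ y ∈ l, x = sh i0 c y) ∨ (x i0 = c + 1 ∧ Cons l (x - E i0) x) := by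
  induction l with
  | nil => simp [ins] at h
  | cons a l ih =>
    cases l with
    | nil => simp [ins] at h; left; exact ⟨a, by simp, h⟩
    | cons b l =>
      simp only [ins, List.mem_cons, List.mem_append] at h
      rcases h with h | h | h
      · left; exact ⟨a, by simp, h⟩
      · right
        obtain ⟨h1, h2⟩ := mem_mid i0 c h
        refine ⟨h1, ?_⟩
        rcases h2 with ⟨h2, h3⟩ | ⟨h2, h3⟩
        · rw [← h3, h2]; exact cons_first a b l
        · rw [← h3, h2]; exact (cons_first a b l).symm
      · rcases ih h with ⟨y, hy, h1⟩ | ⟨h1, h2⟩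
        · left; exact ⟨y, List.mem_cons_of_mem _ hy, h1⟩
        · right; exact ⟨h1, h2.cons a⟩

lemma sh_mem_ins {l : List (Pt d)} {y : Pt d} (h : y ∈ l) : sh i0 c y ∈ ins i0 c l := by
  have : sh i0 c y ∈ (ins i0 c l).filter (fun x => decide (x i0 ≠ c + 1)) := by
    rw [ins_filter]; exact List.mem_map_of_mem h
  exact (List.mem_filter.1 this).1

lemma ins_nodup {l : List (Pt d)} (h : l.Nodup) : (ins i0 c l).Nodup := by
  induction l with
  | nil => simp [ins]
  | cons a l ih =>
    cases l with
    | nil => simp [ins]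
    | cons b l =>
      have hn := List.nodup_cons.1 h
      simp only [ins]
      rw [List.nodup_cons]
      constructor
      · intro hm
        rw [List.mem_append] at hm
        rcases hm with hm | hm
        · exact sh_ne i0 c a (mem_mid i0 c hm).1
        · rcases mem_ins i0 c hm with ⟨y, hy, h1⟩ | ⟨h1, _⟩
          · rw [← sh_inj i0 c h1] at hy
            exact hn.1 hy
          · exact sh_ne i0 c a h1
      · rw [List.nodup_append]
        refine ⟨mid_nodup i0 c a b, ih hn.2, ?_⟩
        intro x hx y hy hxy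
        subst hxy
        obtain ⟨h1, h2⟩ := mem_mid i0 c hx
        rcases mem_ins i0 c hy with ⟨y, hy, h3⟩ | ⟨_, h3⟩
        · rw [h3] at h1; exact sh_ne i0 c y h1
        · rcases h2 with ⟨h4, h5⟩ | ⟨h4, h5⟩
          · rw [← h5] at h3; exact hn.1 h3.mem_left
          · rw [h4] at h3; exact hn.1 h3.mem_right

lemma ins_getLast? (l : List (Pt d)) : (ins i0 c l).getLast? = l.getLast?.map (sh i0 c) := by
  induction l with
  | nil => rfl
  | cons a l ih =>
    cases l with
    | nil => rfl
    | cons b l =>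
      simp only [ins]
      obtain ⟨r, hr⟩ := ins_head i0 c b l
      rw [hr] at ih ⊢
      rw [List.getLast?_cons_cons, ← ih]
      rw [← List.cons_append, List.getLast?_append]
      simp [List.getLast?_cons]

lemma ins_head? (l : List (Pt d)) : (ins i0 c l).head? = l.head?.map (sh i0 c) := by
  cases l with
  | nil => rfl
  | cons a l =>
    obtain ⟨r, hr⟩ := ins_head i0 c a l
    rw [hr]; rfl

/-- a consecutive pair that does not cross stays consecutive -/
lemma cons_ins {l : List (Pt d)} {u v : Pt d} (h : Cons l u v)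
    (hn : ¬ (u i0 = c ∧ v = u + E i0)) (hn' : ¬ (v i0 = c ∧ u = v + E i0)) :
    Cons (ins i0 c l) (sh i0 c u) (sh i0 c v) := by
  rcases h with ⟨A, B, rfl⟩ | ⟨A, B, rfl⟩
  · obtain ⟨A', hA'⟩ := ins_append i0 c A u (v :: B)
    rw [hA']
    apply Cons.append_left
    simp only [ins, mid, if_neg hn, if_neg hn', List.nil_append]
    obtain ⟨r, hr⟩ := ins_head i0 c v B
    rw [hr]; exact cons_first _ _ _
  · obtain ⟨A', hA'⟩ := ins_append i0 c A v (u :: B)
    rw [hA']
    apply Cons.append_left
    simp only [ins, mid, if_neg hn, if_neg hn', List.nil_append]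
    obtain ⟨r, hr⟩ := ins_head i0 c u B
    rw [hr]; exact (cons_first _ _ _).symm

lemma cons_ins_cross {l : List (Pt d)} {u : Pt d} (h : Cons l u (u + E i0)) (hu : u i0 = c) :
    Cons (ins i0 c l) u (u + E i0) ∧ Cons (ins i0 c l) (u + E i0) (u + E i0 + E i0) := by
  have hs1 : sh i0 c u = u := sh_le i0 c (by omega)
  have hs2 : sh i0 c (u + E i0) = u + E i0 + E i0 := sh_gt i0 c (by simp; omega)
  rcases h with ⟨A, B, rfl⟩ | ⟨A, B, rfl⟩
  · obtain ⟨A', hA'⟩ := ins_append i0 c A u ((u + E i0) :: B)
    rw [hA']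
    have : ins i0 c (u :: (u + E i0) :: B) = u :: (u + E i0) :: ins i0 c ((u + E i0) :: B) := by
      simp [ins, mid, hu, hs1]
    rw [this]
    obtain ⟨r, hr⟩ := ins_head i0 c (u + E i0) B
    rw [hr, hs2]
    constructor
    · apply Cons.append_left; exact cons_first _ _ _
    · apply Cons.append_left; apply Cons.cons; exact cons_first _ _ _
  · obtain ⟨A', hA'⟩ := ins_append i0 c A (u + E i0) (u :: B)
    rw [hA']
    have hne : ¬ ((u + E i0) i0 = c ∧ u = u + E i0 + E i0) := by
      rintro ⟨h1, _⟩; simp at h1; omega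
    have : ins i0 c ((u + E i0) :: u :: B) =
        (u + E i0 + E i0) :: (u + E i0) :: ins i0 c (u :: B) := by
      simp only [ins, mid, if_neg hne, hs2]
      simp [hu]
    rw [this]
    obtain ⟨r, hr⟩ := ins_head i0 c u B
    rw [hr, hs1]
    constructor
    · apply Cons.append_left; apply Cons.cons; exact (cons_first _ _ _).symm
    · apply Cons.append_left; exact (cons_first _ _ _).symm

/-- `W` full layers of horizontal lines, except for the vertices in `X` -/
def LS (W : ℕ) (X : Set (Pt d)) (l : List (Pt d)) : Prop :=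
  ∀ x ∈ l, c < x i0 → x i0 ≤ c + W → x ∉ X → Cons l (x - E i0) x ∧ Cons l x (x + E i0)

lemma LS_zero (X : Set (Pt d)) (l : List (Pt d)) : LS i0 c 0 X l := by
  intro x _ h1 h2; exfalso; simp at h2; omega

lemma LS_ins {W : ℕ} {l : List (Pt d)} (h : LS i0 c W ∅ l) : LS i0 c (W + 1) ∅ (ins i0 c l) := by
  intro x hx h1 h2 _
  rcases mem_ins i0 c hx with ⟨y, hy, h3⟩ | ⟨h3, h4⟩
  · have hyc : c < y i0 := by
      by_contra hcon
      rw [sh_le i0 c (not_lt.1 hcon)] at h3
      rw [h3] at h1; exact hcon h1
    rw [sh_gt i0 c hyc] at h3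
    have hyx : x i0 = y i0 + 1 := by rw [h3]; simp
    have hW : y i0 ≤ c + W := by push_cast at h2; omega
    obtain ⟨hc1, hc2⟩ := h y hy hyc hW (by simp)
    constructor
    · by_cases hy1 : y i0 = c + 1
      · have h5 : y = (y - E i0) + E i0 := by simp
        have hc1' : Cons l (y - E i0) ((y - E i0) + E i0) := by rw [← h5]; exact hc1
        have h6 : (y - E i0) i0 = c := by simp; omega
        have h7 := (cons_ins_cross i0 c hc1' h6).2
        rw [← h5] at h7
        have h8 : x - E i0 = y := by rw [h3]; simp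
        rw [h8, h3]; exact h7
      · have h7 := cons_ins i0 c hc1 (by rintro ⟨h5, _⟩; simp at h5; omega)
          (by rintro ⟨h5, _⟩; omega)
        rw [sh_gt i0 c hyc, sh_gt i0 c (by simp; omega)] at h7
        rw [h3]
        have h8 : y + E i0 - E i0 = y - E i0 + E i0 := by ring
        rw [h8]; exact h7
    · have h7 := cons_ins i0 c hc2 (by rintro ⟨h5, _⟩; omega)
          (by rintro ⟨h5, _⟩; simp at h5; omega)
      rw [sh_gt i0 c hyc, sh_gt i0 c (by simp; omega)] at h7
      rw [h3]; exact h7
  · have h5 : (x - E i0) + E i0 = x := by simp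
    have h6 : Cons l (x - E i0) ((x - E i0) + E i0) := by rw [h5]; exact h4
    have h7 := cons_ins_cross i0 c h6 (by simp; omega)
    rw [h5] at h7
    exact h7

lemma ins_layer_len {l : List (Pt d)} (h : l.Nodup) :
    (ins i0 c l).length ≤ l.length + l.countP (fun x => decide (x i0 = c)) := by
  have h1 : ((ins i0 c l).filter (fun x => decide (x i0 ≠ c + 1))).length = l.length := by
    rw [ins_filter, List.length_map]
  have h2 : (ins i0 c l).length = ((ins i0 c l).filter (fun x => decide (x i0 ≠ c + 1))).length +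
      ((ins i0 c l).filter (fun x => !decide (x i0 ≠ c + 1))).length :=
    List.length_eq_length_filter_add _
  rw [h2, h1]
  have h3 : ((ins i0 c l).filter (fun x => !decide (x i0 ≠ c + 1))).length ≤
      (l.filter (fun x => decide (x i0 = c))).length := by
    set F := (ins i0 c l).filter (fun x => !decide (x i0 ≠ c + 1)) with hF
    have hnd : (F.map (fun x => x - E i0)).Nodup := by
      apply List.Nodup.map
      · intro x y hxy; simpa using hxy
      · exact (ins_nodup i0 c h).filter _
    have hsub : (F.map (fun x => x - E i0)) ⊆ (l.filter (fun x => decide (x i0 = c))) := by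
      intro x hx
      rw [List.mem_map] at hx
      obtain ⟨y, hy, rfl⟩ := hx
      rw [hF, List.mem_filter] at hy
      have hy2 : y i0 = c + 1 := by simpa using hy.2
      rcases mem_ins i0 c hy.1 with ⟨z, _, h4⟩ | ⟨_, h4⟩
      · exfalso; rw [h4] at hy2; exact sh_ne i0 c z hy2
      · rw [List.mem_filter]
        exact ⟨h4.mem_left, by simp; omega⟩
    have := (List.subperm_of_subset hnd hsub).length_le
    simpa using this
  rw [List.countP_eq_length_filter]
  omega

lemma le_ins_length (l : List (Pt d)) : l.length ≤ (ins i0 c l).length := by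
  have h1 : ((ins i0 c l).filter (fun x => decide (x i0 ≠ c + 1))).length = l.length := by
    rw [ins_filter, List.length_map]
  rw [← h1]
  exact List.length_filter_le _ _

/-- shifting preserves adjacency of non crossing pairs -/
lemma adj_sh {u v : Pt d} (h : Adj u v)
    (hn : ¬ (u i0 = c ∧ v = u + E i0)) (hn' : ¬ (v i0 = c ∧ u = v + E i0)) :
    Adj (sh i0 c u) (sh i0 c v) := by
  have key : ∀ u v : Pt d, Adj (u + E i0) (v + E i0) ↔ Adj u v := by
    intro u v; simp [Adj, dist1]
  by_cases hu : u i0 ≤ c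
  · by_cases hv : v i0 ≤ c
    · rw [sh_le i0 c hu, sh_le i0 c hv]; exact h
    · exfalso
      push Not at hv
      rcases adj_cases i0 h with h1 | h1 | ⟨h1, _⟩
      · apply hn; refine ⟨?_, h1⟩
        rw [h1] at hv; simp at hv; omega
      · rw [h1] at hv; simp at hv; omega
      · omega
  · push Not at hu
    by_cases hv : v i0 ≤ c
    · exfalso
      rcases adj_cases i0 h.symm with h1 | h1 | ⟨h1, _⟩
      · apply hn'; refine ⟨?_, h1⟩
        rw [h1] at hu; simp at hu; omega
      · rw [h1] at hu; simp at hu; omega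
      · omega
    · push Not at hv
      rw [sh_gt i0 c hu, sh_gt i0 c hv, key]; exact h

lemma ph_sh (u v : Pt d) : ph i0 (sh i0 c u) (sh i0 c v) ≤ ph i0 u v + 2 := by
  unfold ph
  have h1 : dp i0 (sh i0 c u) (sh i0 c v) = dp i0 u v := by
    apply dp_congr
    · intro i hi; unfold sh; split_ifs <;> simp [E_ne hi]
    · intro i hi; unfold sh; split_ifs <;> simp [E_ne hi]
  rw [h1]
  have h2 : ((sh i0 c u) i0 - (sh i0 c v) i0).natAbs ≤ (u i0 - v i0).natAbs + 1 := by
    unfold sh; split_ifs <;> simp <;> omega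
  omega

lemma psum_mid_gp (u v : Pt d) (l : List (Pt d)) :
    psum gp (sh i0 c u :: (mid i0 c u v ++ (sh i0 c v :: l))) ≤
      gp u v + psum gp (sh i0 c v :: l) := by
  by_cases h1 : u i0 = c ∧ v = u + E i0
  · obtain ⟨h1, h2⟩ := h1
    have hs1 : sh i0 c u = u := sh_le i0 c (by omega)
    have hs2 : sh i0 c (u + E i0) = u + E i0 + E i0 := sh_gt i0 c (by simp; omega)
    subst h2
    simp only [mid, h1, true_and, if_true, List.cons_append, List.nil_append, psum_cons_cons,
      hs1, hs2]
    rw [gp_adj (adj_add_E i0 u), gp_adj (adj_add_E i0 (u + E i0))]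
    omega
  · by_cases h2 : v i0 = c ∧ u = v + E i0
    · have hm : mid i0 c u v = [u] := by simp only [mid, if_neg h1, if_pos h2]
      obtain ⟨h2, h3⟩ := h2
      have hs1 : sh i0 c v = v := sh_le i0 c (by omega)
      have hs2 : sh i0 c u = u + E i0 := sh_gt i0 c (by rw [h3]; simp; omega)
      rw [hm, hs1, hs2]
      simp only [List.cons_append, List.nil_append, psum_cons_cons]
      have h4 : Adj u v := by rw [h3]; exact (adj_add_E i0 v).symm
      rw [gp_adj (adj_add_E i0 u).symm, gp_adj h4]
      omega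
    · have hm : mid i0 c u v = [] := by simp only [mid, if_neg h1, if_neg h2]
      rw [hm]
      simp only [List.nil_append, psum_cons_cons]
      by_cases ha : Adj u v
      · rw [gp_adj (adj_sh i0 c ha h1 h2), gp_adj ha]
      · rw [gp_nadj ha]
        have : gp (sh i0 c u) (sh i0 c v) ≤ 1 := by unfold gp; split_ifs <;> omega
        omega

lemma psum_gp_ins (l : List (Pt d)) : psum gp (ins i0 c l) ≤ psum gp l := by
  induction l with
  | nil => simp [ins]
  | cons a l ih =>
    cases l with
    | nil => simp [ins]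
    | cons b l =>
      obtain ⟨r, hr⟩ := ins_head i0 c b l
      rw [hr] at ih
      simp only [ins, hr, psum_cons_cons]
      have := psum_mid_gp i0 c a b r
      omega

lemma psum_mid_gph (u v : Pt d) (l : List (Pt d)) :
    psum (gph i0) (sh i0 c u :: (mid i0 c u v ++ (sh i0 c v :: l))) ≤
      gph i0 u v + 2 * gp u v + psum (gph i0) (sh i0 c v :: l) := by
  by_cases h1 : u i0 = c ∧ v = u + E i0
  · obtain ⟨h1, h2⟩ := h1
    have hs1 : sh i0 c u = u := sh_le i0 c (by omega)
    have hs2 : sh i0 c (u + E i0) = u + E i0 + E i0 := sh_gt i0 c (by simp; omega)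
    subst h2
    simp only [mid, h1, true_and, if_true, List.cons_append, List.nil_append, psum_cons_cons,
      hs1, hs2]
    rw [gph_adj i0 (adj_add_E i0 u), gph_adj i0 (adj_add_E i0 (u + E i0))]
    omega
  · by_cases h2 : v i0 = c ∧ u = v + E i0
    · have hm : mid i0 c u v = [u] := by simp only [mid, if_neg h1, if_pos h2]
      obtain ⟨h2, h3⟩ := h2
      have hs1 : sh i0 c v = v := sh_le i0 c (by omega)
      have hs2 : sh i0 c u = u + E i0 := sh_gt i0 c (by rw [h3]; simp; omega)
      rw [hm, hs1, hs2]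
      simp only [List.cons_append, List.nil_append, psum_cons_cons]
      have h4 : Adj u v := by rw [h3]; exact (adj_add_E i0 v).symm
      rw [gph_adj i0 (adj_add_E i0 u).symm, gph_adj i0 h4]
      omega
    · have hm : mid i0 c u v = [] := by simp only [mid, if_neg h1, if_neg h2]
      rw [hm]
      simp only [List.nil_append, psum_cons_cons]
      by_cases ha : Adj u v
      · rw [gph_adj i0 (adj_sh i0 c ha h1 h2), gph_adj i0 ha]; omega
      · rw [gph_nadj i0 ha, gp_nadj ha]
        have h3 := gph_le_ph i0 (sh i0 c u) (sh i0 c v)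
        have h4 := ph_sh i0 c u v
        omega

lemma psum_gph_ins (l : List (Pt d)) :
    psum (gph i0) (ins i0 c l) ≤ psum (gph i0) l + 2 * psum gp l := by
  induction l with
  | nil => simp [ins]
  | cons a l ih =>
    cases l with
    | nil => simp [ins]
    | cons b l =>
      obtain ⟨r, hr⟩ := ins_head i0 c b l
      rw [hr] at ih
      simp only [ins, hr, psum_cons_cons]
      have := psum_mid_gph i0 c a b r
      omega

lemma nE_ins (l : List (Pt d)) (K : ℕ) (hK : (l.toFinset.filter (fun x => x i0 = c)).card ≤ K) :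
    nE l.toFinset ≤ nE (ins i0 c l).toFinset + 2 * K := by
  classical
  set S := l.toFinset with hS
  set S' := (ins i0 c l).toFinset with hS'
  set P := (S ×ˢ S).filter (fun p => Adj p.1 p.2) with hP
  set P1 := P.filter (fun p => p.1 i0 = c ∧ p.2 = p.1 + E i0) with hP1
  set P2 := P.filter (fun p => p.2 i0 = c ∧ p.1 = p.2 + E i0) with hP2
  set P3 := P.filter (fun p => ¬ (p.1 i0 = c ∧ p.2 = p.1 + E i0) ∧ ¬ (p.2 i0 = c ∧ p.1 = p.2 + E i0))
    with hP3
  have hsub : P ⊆ P1 ∪ P2 ∪ P3 := by
    intro p hp
    simp only [hP1, hP2, hP3, Finset.mem_union, Finset.mem_filter]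
    tauto
  have h1 : P1.card ≤ K := by
    refine le_trans ?_ hK
    apply Finset.card_le_card_of_injOn (fun p => p.1)
    · intro p hp
      simp only [hP1, hP, Finset.coe_filter, Set.mem_ofPred_eq, Finset.mem_filter,
        Finset.mem_product] at hp
      simp only [Finset.coe_filter, Set.mem_ofPred_eq]
      exact ⟨hp.1.1.1, hp.2.1⟩
    · intro p hp q hq hpq
      simp only [hP1, Finset.coe_filter, Set.mem_ofPred_eq] at hp hq
      simp only at hpq
      ext1
      · exact hpq
      · rw [hp.2.2, hq.2.2, hpq]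
  have h2 : P2.card ≤ K := by
    refine le_trans ?_ hK
    apply Finset.card_le_card_of_injOn (fun p => p.2)
    · intro p hp
      simp only [hP2, hP, Finset.coe_filter, Set.mem_ofPred_eq, Finset.mem_filter,
        Finset.mem_product] at hp
      simp only [Finset.coe_filter, Set.mem_ofPred_eq]
      exact ⟨hp.1.1.2, hp.2.1⟩
    · intro p hp q hq hpq
      simp only [hP2, Finset.coe_filter, Set.mem_ofPred_eq] at hp hq
      simp only at hpq
      ext1
      · rw [hp.2.2, hq.2.2, hpq]
      · exact hpq
  have h3 : P3.card ≤ nE S' := by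
    unfold nE
    apply Finset.card_le_card_of_injOn (fun p => (sh i0 c p.1, sh i0 c p.2))
    · intro p hp
      simp only [hP3, hP, Finset.coe_filter, Set.mem_ofPred_eq, Finset.mem_filter,
        Finset.mem_product] at hp
      simp only [Finset.coe_filter, Set.mem_ofPred_eq, Finset.mem_product, hS', List.mem_toFinset]
      obtain ⟨⟨⟨h4, h5⟩, h6⟩, h7, h8⟩ := hp
      rw [hS, List.mem_toFinset] at h4 h5
      exact ⟨⟨sh_mem_ins i0 c h4, sh_mem_ins i0 c h5⟩, adj_sh i0 c h6 h7 h8⟩
    · intro p _ q _ hpq
      simp only [Prod.mk.injEq] at hpq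
      ext1
      · exact sh_inj i0 c hpq.1
      · exact sh_inj i0 c hpq.2
  have h4 : nE S = P.card := rfl
  rw [h4]
  calc P.card ≤ (P1 ∪ P2 ∪ P3).card := Finset.card_le_card hsub
    _ ≤ (P1 ∪ P2).card + P3.card := Finset.card_union_le _ _
    _ ≤ P1.card + P2.card + P3.card := by
        have := Finset.card_union_le P1 P2; omega
    _ ≤ nE S' + 2 * K := by omega

end Pool.Agent.Lib.Pff0a55C
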