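import Pool.Agent.Lib.Pff0a55C.Ins

set_option autoImplicit false

namespace Pool.Agent.Lib.Pff0a55C

variable {d : ℕ}

/-- the neighbours of a point -/
def nbrs (u : Pt d) : Finset (Pt d) :=
  (Finset.univ.image (fun i => u + E i)) ∪ (Finset.univ.image (fun i => u - E i))

lemma mem_nbrs {u v : Pt d} : v ∈ nbrs u ↔ Adj u v := by
  rw [adj_iff_exists]
  unfold nbrs
  simp only [Finset.mem_union, Finset.mem_image, Finset.mem_univ, true_and]
  constructor
  · rintro (⟨i, h⟩ | ⟨i, h⟩)
    · exact ⟨i, Or.inl h.symm⟩
    · exact ⟨i, Or.inr h.symm⟩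
  · rintro ⟨i, h | h⟩
    · exact Or.inl ⟨i, h.symm⟩
    · exact Or.inr ⟨i, h.symm⟩

lemma card_nbrs (u : Pt d) : (nbrs u).card ≤ 2 * d := by
  unfold nbrs
  refine le_trans (Finset.card_union_le _ _) ?_
  have h1 : (Finset.univ.image (fun i => u + E i)).card ≤ d :=
    le_trans Finset.card_image_le (by simp)
  have h2 : (Finset.univ.image (fun i => u - E i)).card ≤ d :=
    le_trans Finset.card_image_le (by simp)
  omega

/-- cheap operations: boundedly many preimages -/
inductive Cheap : List (Pt d) → List (Pt d) → Prop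
  | id (l : List (Pt d)) : Cheap l l
  | ext (z p : Pt d) (l : List (Pt d)) : Adj p z → z ∉ p :: l → Cheap (p :: l) (z :: p :: l)
  | del (p z : Pt d) (l : List (Pt d)) : Adj p z → Cheap (p :: z :: l) (z :: l)
  | rev (A : List (Pt d)) (a z : Pt d) (B : List (Pt d)) : Adj a z →
      (A ++ a :: z :: B).Nodup → Cheap (A ++ a :: z :: B) (a :: (A.reverse ++ z :: B))
  | flip (l : List (Pt d)) : Cheap l l.reverse

/-- expensive operations: polynomially many preimages -/
inductive Exp (i0 : Fin d) (N K : ℕ) : List (Pt d) → List (Pt d) → Prop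
  | id (l : List (Pt d)) : Exp i0 N K l l
  | rev (A B : List (Pt d)) : (A ++ B).length ≤ N → Exp i0 N K (A ++ B) (A.reverse ++ B)
  | rot (A B : List (Pt d)) : (A ++ B).length ≤ N → Exp i0 N K (A ++ B) (B ++ A)
  | ins (c : ℤ) (p : Pt d) (l : List (Pt d)) : p i0 ≤ c → c - p i0 ≤ N →
      ((p :: l).toFinset.filter (fun x => x i0 = c)).card ≤ K → (p :: l).Nodup →
      Exp i0 N K (p :: l) (ins i0 c (p :: l))

/-- `k` cheap and `g` expensive operations -/
inductive Rel (i0 : Fin d) (N K : ℕ) : ℕ → ℕ → List (Pt d) → List (Pt d) → Prop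
  | refl (l : List (Pt d)) : Rel i0 N K 0 0 l l
  | cheap {k g : ℕ} {l l' l'' : List (Pt d)} : Rel i0 N K k g l l' → Cheap l' l'' →
      Rel i0 N K (k + 1) g l l''
  | exp {k g : ℕ} {l l' l'' : List (Pt d)} : Rel i0 N K k g l l' → Exp i0 N K l' l'' →
      Rel i0 N K k (g + 1) l l''

variable {i0 : Fin d} {N K : ℕ}

lemma Rel.trans {k g k' g' : ℕ} {l l' l'' : List (Pt d)} (h : Rel i0 N K k g l l')
    (h' : Rel i0 N K k' g' l' l'') : Rel i0 N K (k + k') (g + g') l l'' := by
  induction h' with
  | refl l => exact h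
  | cheap _ h2 ih => exact Rel.cheap (ih h) h2
  | exp _ h2 ih => exact Rel.exp (ih h) h2

lemma Rel.mono {k g k' g' : ℕ} {l l' : List (Pt d)} (h : Rel i0 N K k g l l') (hk : k ≤ k')
    (hg : g ≤ g') : Rel i0 N K k' g' l l' := by
  obtain ⟨a, rfl⟩ := Nat.exists_eq_add_of_le hk
  obtain ⟨b, rfl⟩ := Nat.exists_eq_add_of_le hg
  have h1 : Rel i0 N K (k + a) g l l' := by
    clear hk hg
    induction a with
    | zero => exact h
    | succ a ih => exact Rel.cheap ih (Cheap.id _)
  clear hk hg h
  induction b with
  | zero => exact h1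
  | succ b ih => exact Rel.exp ih (Exp.id _)

lemma Rel.of_cheap {l l' : List (Pt d)} (h : Cheap l l') : Rel i0 N K 1 0 l l' :=
  Rel.cheap (Rel.refl l) h

lemma Rel.of_exp {l l' : List (Pt d)} (h : Exp i0 N K l l') : Rel i0 N K 0 1 l l' :=
  Rel.exp (Rel.refl l) h

/-! ### counting preimages -/

/-- undo a reversal in front of `z` -/
def unrev (z : Pt d) (l : List (Pt d)) : List (Pt d) :=
  (l.takeWhile (fun x => decide (x ≠ z))).reverse ++ l.dropWhile (fun x => decide (x ≠ z))

lemma unrev_append {z : Pt d} {C B : List (Pt d)} (h : z ∉ C) :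
    unrev z (C ++ z :: B) = C.reverse ++ z :: B := by
  have h1 : ∀ x ∈ C, decide (x ≠ z) = true := by
    intro x hx; simp; rintro rfl; exact h hx
  unfold unrev
  rw [List.takeWhile_append_of_pos h1, List.dropWhile_append_of_pos h1]
  simp

/-- candidates for cheap preimages -/
def cheapPre (l : List (Pt d)) : Finset (List (Pt d)) :=
  {l, l.tail, l.reverse} ∪
    (match l with
      | [] => ∅
      | a :: _ => (nbrs a).image (fun u => u :: l) ∪ (nbrs a).image (fun u => unrev u l))

lemma cheapPre_card (l : List (Pt d)) : (cheapPre l).card ≤ 4 * d + 3 := by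
  unfold cheapPre
  refine le_trans (Finset.card_union_le _ _) ?_
  have h1 : ({l, l.tail, l.reverse} : Finset (List (Pt d))).card ≤ 3 := Finset.card_le_three
  cases l with
  | nil => simp
  | cons a l =>
    have h2 := Finset.card_union_le ((nbrs a).image (fun u => u :: a :: l))
      ((nbrs a).image (fun u => unrev u (a :: l)))
    have h3 : ((nbrs a).image (fun u => u :: a :: l)).card ≤ 2 * d :=
      le_trans Finset.card_image_le (card_nbrs a)
    have h4 : ((nbrs a).image (fun u => unrev u (a :: l))).card ≤ 2 * d :=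
      le_trans Finset.card_image_le (card_nbrs a)
    simp only
    omega

lemma mem_cheapPre {l l' : List (Pt d)} (h : Cheap l l') : l ∈ cheapPre l' := by
  cases h with
  | id l => simp [cheapPre]
  | ext z p l h1 h2 => simp [cheapPre]
  | del p z l h =>
    unfold cheapPre
    simp only [Finset.mem_union, Finset.mem_image]
    right; left
    exact ⟨p, mem_nbrs.2 h.symm, rfl⟩
  | rev A a z B h hn =>
    unfold cheapPre
    simp only [Finset.mem_union, Finset.mem_image]
    right; right
    refine ⟨z, mem_nbrs.2 h, ?_⟩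
    rw [← List.cons_append, unrev_append]
    · simp
    · intro hz
      rw [List.nodup_append] at hn
      simp only [List.mem_cons, List.mem_reverse] at hz
      rcases hz with hz | hz
      · exact h.ne hz.symm
      · exact hn.2.2 z hz z (by simp) rfl
  | flip l => simp [cheapPre]

/-- candidates for expensive preimages -/
def expPre (i0 : Fin d) (N : ℕ) (l : List (Pt d)) : Finset (List (Pt d)) :=
  {l} ∪ (Finset.range (N + 1)).image (fun k => (l.take k).reverse ++ l.drop k) ∪
    (Finset.range (N + 1)).image (fun k => l.drop k ++ l.take k) ∪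
    (match l with
      | [] => ∅
      | a :: _ => (Finset.range (N + 1)).image (fun k : ℕ => unins i0 (a i0 + (k : ℤ)) l))

lemma expPre_card (i0 : Fin d) (N : ℕ) (l : List (Pt d)) :
    (expPre i0 N l).card ≤ 3 * N + 4 := by
  unfold expPre
  refine le_trans (Finset.card_union_le _ _) ?_
  have h0 := Finset.card_union_le (({l} ∪ (Finset.range (N + 1)).image
    (fun k => (l.take k).reverse ++ l.drop k)) : Finset (List (Pt d)))
    ((Finset.range (N + 1)).image (fun k => l.drop k ++ l.take k))
  have h1 := Finset.card_union_le ({l} : Finset (List (Pt d)))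
    ((Finset.range (N + 1)).image (fun k => (l.take k).reverse ++ l.drop k))
  have h2 : ((Finset.range (N + 1)).image (fun k => (l.take k).reverse ++ l.drop k)).card ≤ N + 1 :=
    le_trans Finset.card_image_le (by simp)
  have h3 : ((Finset.range (N + 1)).image (fun k => l.drop k ++ l.take k)).card ≤ N + 1 :=
    le_trans Finset.card_image_le (by simp)
  have h5 : ({l} : Finset (List (Pt d))).card = 1 := Finset.card_singleton _
  cases l with
  | nil =>
    simp only [Finset.card_empty]
    omega
  | cons a l =>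
    have h4 : ((Finset.range (N + 1)).image (fun k : ℕ => unins i0 (a i0 + (k : ℤ)) (a :: l))).card
        ≤ N + 1 :=
      le_trans Finset.card_image_le (by simp)
    simp only
    omega

lemma mem_expPre {l l' : List (Pt d)} (h : Exp i0 N K l l') : l ∈ expPre i0 N l' := by
  cases h with
  | id l => simp [expPre]
  | rev A B h =>
    unfold expPre
    simp only [Finset.mem_union, Finset.mem_image]
    left; left; right
    refine ⟨A.length, ?_, ?_⟩
    · rw [Finset.mem_range]; rw [List.length_append] at h; omega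
    · have : A.length = A.reverse.length := by simp
      rw [this, List.take_left, List.drop_left]; simp
  | rot A B h =>
    unfold expPre
    simp only [Finset.mem_union, Finset.mem_image]
    left; right
    refine ⟨B.length, ?_, ?_⟩
    · rw [Finset.mem_range]; rw [List.length_append] at h; omega
    · rw [List.take_left, List.drop_left]
  | ins c p l h1 h2 h3 h4 =>
    obtain ⟨r, hr⟩ := ins_head i0 c p l
    rw [sh_le i0 c h1] at hr
    rw [hr]
    unfold expPre
    simp only [Finset.mem_union, Finset.mem_image]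
    right
    refine ⟨(c - p i0).toNat, ?_, ?_⟩
    · rw [Finset.mem_range]; omega
    · rw [← hr]
      have : p i0 + ((c - p i0).toNat : ℤ) = c := by omega
      rw [this, unins_ins]

lemma rel_count (i0 : Fin d) (N K : ℕ) : ∀ n k g : ℕ, k + g = n → ∀ l' : List (Pt d),
    ∃ S : Finset (List (Pt d)), S.card ≤ (2 * (4 * d + 3)) ^ k * (2 * (3 * N + 4)) ^ g ∧
      ∀ l, Rel i0 N K k g l l' → l ∈ S := by
  classical
  intro n
  induction n with
  | zero =>
    intro k g hkg l'
    have hk : k = 0 := by omega
    have hg : g = 0 := by omega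
    subst hk; subst hg
    refine ⟨{l'}, by simp, ?_⟩
    intro l h
    cases h with
    | refl _ => simp
  | succ n ih =>
    intro k g hkg l'
    -- both parts
    have hcheap : ∃ S : Finset (List (Pt d)),
        2 * S.card ≤ (2 * (4 * d + 3)) ^ k * (2 * (3 * N + 4)) ^ g ∧
        ∀ l l'' k', k = k' + 1 → Rel i0 N K k' g l l'' → Cheap l'' l' → l ∈ S := by
      cases k with
      | zero => exact ⟨∅, by simp, by intro l l'' k' h; omega⟩
      | succ k =>
        choose F hF1 hF2 using ih k g (by omega)
        refine ⟨(cheapPre l').biUnion F, ?_, ?_⟩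
        · have h1 : ((cheapPre l').biUnion F).card ≤
              (cheapPre l').card * ((2 * (4 * d + 3)) ^ k * (2 * (3 * N + 4)) ^ g) :=
            Finset.card_biUnion_le_card_mul _ _ _ (fun x _ => hF1 x)
          have h2 := cheapPre_card l'
          calc 2 * ((cheapPre l').biUnion F).card
              ≤ 2 * ((4 * d + 3) * ((2 * (4 * d + 3)) ^ k * (2 * (3 * N + 4)) ^ g)) := by
                refine Nat.mul_le_mul_left _ (le_trans h1 (Nat.mul_le_mul_right _ h2))
            _ = (2 * (4 * d + 3)) ^ (k + 1) * (2 * (3 * N + 4)) ^ g := by ring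
        · intro l l'' k' hk hr hc
          have : k' = k := by omega
          subst this
          rw [Finset.mem_biUnion]
          exact ⟨l'', mem_cheapPre hc, hF2 l'' l hr⟩
    have hexp : ∃ S : Finset (List (Pt d)),
        2 * S.card ≤ (2 * (4 * d + 3)) ^ k * (2 * (3 * N + 4)) ^ g ∧
        ∀ l l'' g', g = g' + 1 → Rel i0 N K k g' l l'' → Exp i0 N K l'' l' → l ∈ S := by
      cases g with
      | zero => exact ⟨∅, by simp, by intro l l'' k' h; omega⟩
      | succ g =>
        choose F hF1 hF2 using ih k g (by omega)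
        refine ⟨(expPre i0 N l').biUnion F, ?_, ?_⟩
        · have h1 : ((expPre i0 N l').biUnion F).card ≤
              (expPre i0 N l').card * ((2 * (4 * d + 3)) ^ k * (2 * (3 * N + 4)) ^ g) :=
            Finset.card_biUnion_le_card_mul _ _ _ (fun x _ => hF1 x)
          have h2 := expPre_card i0 N l'
          calc 2 * ((expPre i0 N l').biUnion F).card
              ≤ 2 * ((3 * N + 4) * ((2 * (4 * d + 3)) ^ k * (2 * (3 * N + 4)) ^ g)) := by
                refine Nat.mul_le_mul_left _ (le_trans h1 (Nat.mul_le_mul_right _ h2))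
            _ = (2 * (4 * d + 3)) ^ k * (2 * (3 * N + 4)) ^ (g + 1) := by ring
        · intro l l'' g' hg hr hc
          have : g' = g := by omega
          subst this
          rw [Finset.mem_biUnion]
          exact ⟨l'', mem_expPre hc, hF2 l'' l hr⟩
    obtain ⟨S1, hS1, hS1'⟩ := hcheap
    obtain ⟨S2, hS2, hS2'⟩ := hexp
    refine ⟨S1 ∪ S2, ?_, ?_⟩
    · have := Finset.card_union_le S1 S2
      omega
    · intro l h
      cases h with
      | refl _ => omega
      | cheap h1 h2 => exact Finset.mem_union_left _ (hS1' l _ _ rfl h1 h2)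
      | exp h1 h2 => exact Finset.mem_union_right _ (hS2' l _ _ rfl h1 h2)

/-! ### bookkeeping -/

lemma cheap_nodup {l l' : List (Pt d)} (h : Cheap l l') (hn : l.Nodup) : l'.Nodup := by
  cases h with
  | id l => exact hn
  | ext z p l h1 h2 => exact List.nodup_cons.2 ⟨h2, hn⟩
  | del p z l h => exact (List.nodup_cons.1 hn).2
  | rev A a z B h hn' =>
    have : (a :: (A.reverse ++ z :: B)).Perm (A ++ a :: z :: B) := by
      have h1 : (a :: (A.reverse ++ z :: B)) = (A ++ [a]).reverse ++ z :: B := by simp
      have h2 : A ++ a :: z :: B = (A ++ [a]) ++ z :: B := by simp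
      rw [h1, h2]
      exact (List.reverse_perm _).append_right _
    exact this.nodup_iff.2 hn
  | flip l => exact List.nodup_reverse.2 hn

lemma exp_nodup {l l' : List (Pt d)} (h : Exp i0 N K l l') (hn : l.Nodup) : l'.Nodup := by
  cases h with
  | id l => exact hn
  | rev A B h => exact ((List.reverse_perm A).append_right B).nodup_iff.2 hn
  | rot A B h => exact List.perm_append_comm.nodup_iff.2 hn
  | ins c p l h1 h2 h3 h4 => exact ins_nodup i0 c hn

lemma rel_nodup {k g : ℕ} {l l' : List (Pt d)} (h : Rel i0 N K k g l l') (hn : l.Nodup) :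
    l'.Nodup := by
  induction h with
  | refl l => exact hn
  | cheap _ h2 ih => exact cheap_nodup h2 (ih hn)
  | exp _ h2 ih => exact exp_nodup h2 (ih hn)

lemma cheap_length {l l' : List (Pt d)} (h : Cheap l l') :
    l'.length ≤ l.length + 1 ∧ l.length ≤ l'.length + 1 := by
  cases h <;> simp <;> omega

lemma countP_card {l : List (Pt d)} (hn : l.Nodup) (c : ℤ) :
    l.countP (fun x => decide (x i0 = c)) = (l.toFinset.filter (fun x => x i0 = c)).card := by
  rw [List.countP_eq_length_filter]
  rw [← List.toFinset_card_of_nodup (hn.filter _)]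
  congr 1
  ext x
  simp

lemma exp_length {l l' : List (Pt d)} (h : Exp i0 N K l l') :
    l'.length ≤ l.length + K ∧ l.length ≤ l'.length := by
  cases h with
  | id l => simp
  | rev A B h => simp
  | rot A B h => simp; omega
  | ins c p l h1 h2 h3 h4 =>
    refine ⟨?_, le_ins_length i0 c _⟩
    have := ins_layer_len i0 c h4
    rw [countP_card h4] at this
    omega

lemma rel_length {k g : ℕ} {l l' : List (Pt d)} (h : Rel i0 N K k g l l') :
    l'.length ≤ l.length + k + K * g ∧ l.length ≤ l'.length + k := by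
  induction h with
  | refl l => simp
  | cheap _ h2 ih =>
    have := cheap_length h2
    omega
  | exp _ h2 ih =>
    have := exp_length h2
    rw [Nat.mul_succ]
    omega

lemma nE_mono {S T : Finset (Pt d)} (h : S ⊆ T) : nE S ≤ nE T := by
  unfold nE
  apply Finset.card_le_card
  intro p hp
  rw [Finset.mem_filter, Finset.mem_product] at hp ⊢
  exact ⟨⟨h hp.1.1, h hp.1.2⟩, hp.2⟩

lemma nE_insert_le (S : Finset (Pt d)) (x : Pt d) : nE (insert x S) ≤ nE S + 4 * d := by
  classical
  unfold nE
  have hsub : (((insert x S) ×ˢ (insert x S)).filter (fun p => Adj p.1 p.2)) ⊆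
      ((S ×ˢ S).filter (fun p => Adj p.1 p.2)) ∪ ((nbrs x).image (fun y => (x, y))) ∪
        ((nbrs x).image (fun y => (y, x))) := by
    rintro ⟨a, b⟩ hp
    simp only [Finset.mem_filter, Finset.mem_product, Finset.mem_insert] at hp
    simp only [Finset.mem_union, Finset.mem_filter, Finset.mem_product, Finset.mem_image,
      Prod.mk.injEq]
    obtain ⟨⟨ha, hb⟩, hab⟩ := hp
    by_cases hax : a = x
    · left; right
      subst hax
      exact ⟨b, mem_nbrs.2 hab, rfl, rfl⟩
    · by_cases hbx : b = x
      · right; subst hbx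
        exact ⟨a, mem_nbrs.2 hab.symm, rfl, rfl⟩
      · left; left
        exact ⟨⟨ha.resolve_left hax, hb.resolve_left hbx⟩, hab⟩
  refine le_trans (Finset.card_le_card hsub) ?_
  refine le_trans (Finset.card_union_le _ _) ?_
  have h1 := Finset.card_union_le ((S ×ˢ S).filter (fun p => Adj p.1 p.2))
    ((nbrs x).image (fun y => (x, y)))
  have h2 : ((nbrs x).image (fun y => (x, y))).card ≤ 2 * d :=
    le_trans Finset.card_image_le (card_nbrs x)
  have h3 : ((nbrs x).image (fun y => (y, x))).card ≤ 2 * d :=
    le_trans Finset.card_image_le (card_nbrs x)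
  omega

lemma nE_perm {l l' : List (Pt d)} (h : l.Perm l') : nE l.toFinset = nE l'.toFinset := by
  rw [List.toFinset_eq_of_perm _ _ h]

lemma cheap_nE {l l' : List (Pt d)} (h : Cheap l l') :
    nE l.toFinset ≤ nE l'.toFinset + 4 * d := by
  cases h with
  | id l => omega
  | ext z p l h1 h2 =>
    have : (p :: l).toFinset ⊆ (z :: p :: l).toFinset := by
      intro x hx; simp at hx ⊢; tauto
    have := nE_mono this
    omega
  | del p z l h =>
    rw [List.toFinset_cons (a := p)]
    exact nE_insert_le _ _
  | rev A a z B h hn' =>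
    have : (a :: (A.reverse ++ z :: B)).Perm (A ++ a :: z :: B) := by
      have h1 : (a :: (A.reverse ++ z :: B)) = (A ++ [a]).reverse ++ z :: B := by simp
      have h2 : A ++ a :: z :: B = (A ++ [a]) ++ z :: B := by simp
      rw [h1, h2]
      exact (List.reverse_perm _).append_right _
    rw [nE_perm this]; omega
  | flip l =>
    rw [nE_perm (List.reverse_perm l)]; omega

lemma exp_nE {l l' : List (Pt d)} (h : Exp i0 N K l l') :
    nE l.toFinset ≤ nE l'.toFinset + 2 * K := by
  cases h with
  | id l => omega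
  | rev A B h => rw [nE_perm ((List.reverse_perm A).append_right B)]; omega
  | rot A B h => rw [nE_perm (List.perm_append_comm (l₁ := A) (l₂ := B))]; omega
  | ins c p l h1 h2 h3 h4 => exact nE_ins i0 c _ K h3

lemma rel_nE {k g : ℕ} {l l' : List (Pt d)} (h : Rel i0 N K k g l l') :
    nE l.toFinset ≤ nE l'.toFinset + 4 * d * k + 2 * K * g := by
  induction h with
  | refl l => simp
  | cheap _ h2 ih =>
    have := cheap_nE h2
    rw [Nat.mul_succ]
    omega
  | exp _ h2 ih =>
    have := exp_nE h2
    rw [Nat.mul_succ]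
    omega

lemma adj_coord {u v : Pt d} (h : Adj u v) (i : Fin d) : |v i - u i| ≤ 1 := by
  have h1 : (u i - v i).natAbs ≤ dist1 u v := by
    unfold dist1
    exact Finset.single_le_sum (f := fun i => (u i - v i).natAbs) (fun _ _ => Nat.zero_le _)
      (Finset.mem_univ i)
  unfold Adj at h
  rw [h] at h1
  rw [abs_le]; omega

lemma cheap_near {l l' : List (Pt d)} (h : Cheap l l') :
    ∀ x ∈ l', ∃ y ∈ l, ∀ i, |x i - y i| ≤ 1 := by
  intro x hx
  cases h with
  | id l => exact ⟨x, hx, fun i => by simp⟩
  | ext z p l h1 h2 =>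
    rcases List.mem_cons.1 hx with rfl | hx
    · exact ⟨p, by simp, fun i => adj_coord h1 i⟩
    · exact ⟨x, hx, fun i => by simp⟩
  | del p z l h => exact ⟨x, List.mem_cons_of_mem _ hx, fun i => by simp⟩
  | rev A a z B h hn' =>
    refine ⟨x, ?_, fun i => by simp⟩
    simp only [List.mem_cons, List.mem_append, List.mem_reverse] at hx ⊢
    tauto
  | flip l => exact ⟨x, List.mem_reverse.1 hx, fun i => by simp⟩

lemma exp_near {l l' : List (Pt d)} (h : Exp i0 N K l l') :
    ∀ x ∈ l', ∃ y ∈ l, ∀ i, |x i - y i| ≤ 1 := by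
  intro x hx
  cases h with
  | id l => exact ⟨x, hx, fun i => by simp⟩
  | rev A B h =>
    refine ⟨x, ?_, fun i => by simp⟩
    simp only [List.mem_append, List.mem_reverse] at hx ⊢
    exact hx
  | rot A B h =>
    refine ⟨x, ?_, fun i => by simp⟩
    simp only [List.mem_append] at hx ⊢
    tauto
  | ins c p l h1 h2 h3 h4 =>
    rcases mem_ins i0 c hx with ⟨y, hy, h5⟩ | ⟨_, h5⟩
    · refine ⟨y, hy, fun i => ?_⟩
      rw [h5]
      unfold sh
      split_ifs
      · simp
      · by_cases hi : i = i0
        · subst hi; simp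
        · simp [E_ne hi]
    · exact ⟨x, h5.mem_right, fun i => by simp⟩

lemma rel_near {k g : ℕ} {l l' : List (Pt d)} (h : Rel i0 N K k g l l') :
    ∀ x ∈ l', ∃ y ∈ l, ∀ i, |x i - y i| ≤ (k : ℤ) + g := by
  induction h with
  | refl l => intro x hx; exact ⟨x, hx, fun i => by simp⟩
  | cheap _ h2 ih =>
    intro x hx
    obtain ⟨y, hy, hxy⟩ := cheap_near h2 x hx
    obtain ⟨w, hw, hyw⟩ := ih y hy
    refine ⟨w, hw, fun i => ?_⟩
    have h3 := hxy i
    have h4 := hyw i
    rw [abs_le] at h3 h4 ⊢
    push_cast
    omega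
  | exp _ h2 ih =>
    intro x hx
    obtain ⟨y, hy, hxy⟩ := exp_near h2 x hx
    obtain ⟨w, hw, hyw⟩ := ih y hy
    refine ⟨w, hw, fun i => ?_⟩
    have h3 := hxy i
    have h4 := hyw i
    rw [abs_le] at h3 h4 ⊢
    push_cast
    omega

end Pool.Agent.Lib.Pff0a55C
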