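import Pool.Agent.Lib.Pff0a55C.Travel

set_option autoImplicit false

namespace Pool.Agent.Lib.Pff0a55C

variable {d : ℕ} {i0 : Fin d}

lemma head_ne_last {l : List (Pt d)} {p q : Pt d} (hn : l.Nodup) (hp : l.head? = some p)
    (hq : l.getLast? = some q) (hl : 2 ≤ l.length) : p ≠ q := by
  cases l with
  | nil => simp at hp
  | cons a l =>
    cases l with
    | nil => simp at hl
    | cons b l =>
      simp at hp
      subst hp
      rw [List.getLast?_cons_cons] at hq
      have := List.mem_of_getLast? hq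
      rintro rfl
      exact (List.nodup_cons.1 hn).1 this

/-- a sparse layer -/
lemma sparse_layer (l : List (Pt d)) (a : ℤ) (ρ K : ℕ) (h : l.length < (K + 1) * ρ) :
    ∃ c, a ≤ c ∧ c < a + ρ ∧ lay i0 c l ≤ K := by
  by_contra hcon
  push Not at hcon
  have h1 : ∑ j ∈ Finset.range ρ, lay i0 (a + j) l ≤ l.toFinset.card := by
    have : ∑ j ∈ Finset.range ρ, lay i0 (a + j) l =
        ((Finset.range ρ).biUnion (fun j => l.toFinset.filter (fun x => x i0 = a + (j:ℤ)))).card := by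
      rw [Finset.card_biUnion]
      · rfl
      · intro x _ y _ hxy
        rw [Function.onFun, Finset.disjoint_left]
        intro z hz hz'
        rw [Finset.mem_filter] at hz hz'
        apply hxy
        have := hz.2.symm.trans hz'.2
        omega
    rw [this]
    apply Finset.card_le_card
    intro x hx
    rw [Finset.mem_biUnion] at hx
    obtain ⟨j, _, hj⟩ := hx
    exact (Finset.mem_filter.1 hj).1
  have h2 : ρ * (K + 1) ≤ ∑ j ∈ Finset.range ρ, lay i0 (a + j) l := by
    have : ∑ j ∈ Finset.range ρ, (K + 1) ≤ ∑ j ∈ Finset.range ρ, lay i0 (a + j) l := by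
      apply Finset.sum_le_sum
      intro j hj
      rw [Finset.mem_range] at hj
      exact hcon (a + j) (by omega) (by omega)
    simpa using this
  have h3 := l.toFinset_card_le
  rw [mul_comm] at h2
  omega

lemma lay_ins (c : ℤ) (l : List (Pt d)) : lay i0 c (ins i0 c l) ≤ lay i0 c l := by
  unfold lay
  apply Finset.card_le_card
  intro x hx
  simp only [Finset.mem_filter, List.mem_toFinset] at hx ⊢
  obtain ⟨hx1, hx2⟩ := hx
  refine ⟨?_, hx2⟩
  rcases mem_ins i0 c hx1 with ⟨y, hy, h⟩ | ⟨h, _⟩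
  · by_cases hyc : y i0 ≤ c
    · rw [sh_le i0 c hyc] at h; rw [h]; exact hy
    · rw [sh_gt i0 c (not_le.1 hyc)] at h
      rw [h] at hx2; simp at hx2; omega
  · omega

/-- inserting a corridor of width `W` -/
lemma corridor {N K : ℕ} {c : ℤ} {l : List (Pt d)} {p q : Pt d} (hn : l.Nodup)
    (hp : l.head? = some p) (hq : l.getLast? = some q) (hpc : p i0 ≤ c) (hqc : q i0 ≤ c)
    (hN : c - p i0 ≤ N) (hK : lay i0 c l ≤ K) : ∀ W : ℕ,
    ∃ l', Rel i0 N K 0 W l l' ∧ l'.Nodup ∧ l'.head? = some p ∧ l'.getLast? = some q ∧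
      LS i0 c W ∅ l' ∧ lay i0 c l' ≤ K ∧ psum gp l' ≤ psum gp l ∧
      psum (gph i0) l' ≤ psum (gph i0) l + 2 * W * psum gp l := by
  intro W
  induction W with
  | zero =>
    exact ⟨l, Rel.refl l, hn, hp, hq, LS_zero i0 c ∅ l, hK, le_rfl, by omega⟩
  | succ W ih =>
    obtain ⟨l', h1, h2, h3, h4, h5, h6, h7, h8⟩ := ih
    refine ⟨ins i0 c l', ?_, ins_nodup i0 c h2, ?_, ?_, LS_ins i0 c h5, ?_, ?_, ?_⟩
    · apply Rel.exp h1
      cases l' with
      | nil => simp at h3
      | cons p' r =>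
        simp at h3; subst h3
        exact Exp.ins c p' r hpc hN h6 h2
    · rw [ins_head?, h3]; simp [sh_le i0 c hpc]
    · rw [ins_getLast?, h4]; simp [sh_le i0 c hqc]
    · exact le_trans (lay_ins c l') h6
    · exact le_trans (psum_gp_ins i0 c l') h7
    · have := psum_gph_ins i0 c l'
      calc psum (gph i0) (ins i0 c l') ≤ psum (gph i0) l' + 2 * psum gp l' := this
        _ ≤ (psum (gph i0) l + 2 * W * psum gp l) + 2 * psum gp l := by omega
        _ = psum (gph i0) l + 2 * (W + 1) * psum gp l := by ring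

lemma lay_succ_le {c : ℤ} {W : ℕ} (hW : 1 ≤ W) {l : List (Pt d)} (h : LS i0 c W ∅ l) :
    lay i0 (c + 1) l ≤ lay i0 c l := by
  unfold lay
  apply Finset.card_le_card_of_injOn (fun x => x - E i0)
  · intro x hx
    simp only [Finset.coe_filter, Set.mem_ofPred_eq, List.mem_toFinset] at hx ⊢
    obtain ⟨h1, _⟩ := h x hx.1 (by omega) (by rw [hx.2]; push_cast; omega) (by simp)
    exact ⟨h1.mem_left, by simp; omega⟩
  · intro x _ y _ hxy
    simpa using hxy

lemma LS_mono {c : ℤ} {W : ℕ} {X Y : Set (Pt d)} {l : List (Pt d)} (h : LS i0 c W X l)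
    (hXY : X ⊆ Y) : LS i0 c W Y l := by
  intro x hx h1 h2 h3
  exact h x hx h1 h2 (fun h4 => h3 (hXY h4))

lemma LS_reverse {c : ℤ} {W : ℕ} {X : Set (Pt d)} {l : List (Pt d)} (h : LS i0 c W X l) :
    LS i0 c W X l.reverse := by
  intro x hx h1 h2 h3
  obtain ⟨h4, h5⟩ := h x (List.mem_reverse.1 hx) h1 h2 h3
  exact ⟨h4.reverse, h5.reverse⟩

lemma ph_eq_of_le {p q : Pt d} (h : p i0 ≤ q i0) :
    (ph i0 p q : ℤ) = 2 * (q i0 - p i0) + dp i0 p q := by
  have h1 : |p i0 - q i0| = q i0 - p i0 := by rw [abs_sub_comm, abs_of_nonneg (by omega)]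
  unfold ph; push_cast; rw [h1]

/-- after both ends have arrived in the corridor, the gap is closed -/
lemma finish {N K : ℕ} {c : ℤ} {W : ℕ} {q p : Pt d} {l : List (Pt d)} (hn : l.Nodup)
    (hp : l.head? = some p) (hq : l.getLast? = some q) (hls : LS i0 c W {p, q} l)
    (hpc : p i0 = c + K + 4) (hqc : q i0 = c + 1) (hW : W = 2 * K + 6)
    (hlay : lay i0 (c + 1) l ≤ K + 2) :
    ∃ l' p' q', Rel i0 N K (dp i0 p q + W + 2) 0 l l' ∧ l'.Nodup ∧ l'.head? = some p' ∧
      l'.getLast? = some q' ∧ Adj p' q' ∧ psum (gph i0) l' = psum (gph i0) l ∧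
      psum gp l' = psum gp l := by
  have hpq : p ≠ q := by rintro rfl; omega
  -- reach dp ≤ 1
  have key : ∃ l1 p1, Rel i0 N K (dp i0 p q) 0 l l1 ∧ l1.Nodup ∧ l1.head? = some p1 ∧
      l1.getLast? = some q ∧ dp i0 p1 q ≤ 1 ∧ c + 2 ≤ p1 i0 ∧ p1 i0 ≤ c + W ∧
      (∀ x ∈ l1, q i0 < x i0 → x i0 ≤ p1 i0 → x ≠ p1 → dp i0 x q = 0 → Cons l1 (x - E i0) x) ∧
      psum (gph i0) l1 = psum (gph i0) l ∧ psum gp l1 = psum gp l := by
    rcases Nat.eq_zero_or_pos (dp i0 p q) with h0 | h0
    · refine ⟨l, p, (Rel.refl l).mono (by omega) (by omega), hn, hp, hq, by omega, by omega,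
        by omega, ?_, rfl, rfl⟩
      intro x hx h1 h2 h3 _
      have h4 : x ≠ q := by rintro rfl; omega
      exact (hls x hx (by omega) (by omega) (by simp; exact ⟨h3, h4⟩)).1
    · have hinv : TInv i0 c W q p l := by
        refine ⟨hn, hp, hq, ?_⟩
        intro x hx h1 h2 h3 h4
        have h5 : x ≠ p := by rintro rfl; omega
        exact hls x hx h1 h2 (by simp; exact ⟨h5, h3⟩)
      have hah : (ahead i0 c q p l).card ≤ K + 2 := by
        refine le_trans ?_ hlay
        unfold ahead lay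
        apply Finset.card_le_card
        intro x hx
        simp only [Finset.mem_filter] at hx ⊢
        exact ⟨hx.1, hx.2.1⟩
      obtain ⟨l1, p1, g1, g2, g3, g4, g5, g6, g7⟩ := travel (N := N) (K := K) (dp i0 p q - 1) l p
        hinv (by omega) (by omega) (by omega)
      refine ⟨l1, p1, g1.mono (by omega) (by omega), g2.nodup, g2.head, g2.last, by omega, g4, g5,
        ?_, g6, g7⟩
      intro x hx h1 h2 h3 h4
      have h6 : x ≠ q := by rintro rfl; omega
      exact (g2.line x hx (by omega) (by omega) h6 (by omega)).1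
  obtain ⟨l1, p1, g1, g2, g3, g4, g5, g6, g7, g8, g9, g10⟩ := key
  have hinv : FInv i0 p1 q l1.reverse := by
    refine ⟨List.nodup_reverse.2 g2, ?_, ?_, ?_⟩
    · rw [List.head?_reverse]; exact g4
    · rw [List.getLast?_reverse]; exact g3
    · intro x hx h1 h2 h3 h4
      exact (g8 x (List.mem_reverse.1 hx) h1 h2 h3 h4).reverse
  have hqp1 : q ≠ p1 := by rintro rfl; omega
  obtain ⟨l2, q2, e1, e2, e3, e4, e5, e6, e7⟩ := rowdrive (N := N) (K := K)
    (p1 i0 - q i0).toNat l1.reverse q hinv (by omega) (by rw [dp_comm]; exact g5) hqp1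
  refine ⟨l2.reverse, p1, q2, ?_, List.nodup_reverse.2 e2, ?_, ?_, e5.symm, ?_, ?_⟩
  · have r1 : Rel i0 N K 1 0 l1 l1.reverse := Rel.of_cheap (Cheap.flip l1)
    have r2 : Rel i0 N K 1 0 l2 l2.reverse := Rel.of_cheap (Cheap.flip l2)
    exact (((g1.trans r1).trans e1).trans r2).mono (by omega) (by omega)
  · rw [List.head?_reverse]; exact e4
  · rw [List.getLast?_reverse]; exact e3
  · rw [psum_reverse _ (gph_comm i0), e6, psum_reverse _ (gph_comm i0), g9]
  · rw [psum_reverse _ gp_comm, e7, psum_reverse _ gp_comm, g10]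

/-- one stage: the active gap is closed or merged with another gap (left end first) -/
lemma stage_aux {N K ρ : ℕ} {l : List (Pt d)} {p q : Pt d} (hn : l.Nodup)
    (hp : l.head? = some p) (hq : l.getLast? = some q) (hpq : p i0 ≤ q i0)
    (hlen : l.length < (K + 1) * ρ)
    (hN : l.length + K * (2 * K + 6) + ph i0 p q + 2 * ρ + 2 * K + 8 ≤ N) :
    ∃ l' p' q' k, Rel i0 N K k (2 * K + 8) l l' ∧ l'.Nodup ∧ l'.head? = some p' ∧
      l'.getLast? = some q' ∧
      psum (gph i0) l' + ph i0 p' q' + k ≤ psum (gph i0) l + ph i0 p q +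
        (2 * (2 * K + 6) * psum gp l + 8 * (ρ + K + 4) + 2 * K + 20) ∧
      psum gp l' ≤ psum gp l ∧ (Adj p' q' ∨ psum gp l' + 1 ≤ psum gp l) := by
  have hphz := ph_eq_of_le hpq
  obtain ⟨c, hc1, hc2, hc3⟩ := sparse_layer (i0 := i0) l (q i0) ρ K hlen
  obtain ⟨l1, a1, a2, a3, a4, a5, a6, a7, a8⟩ := corridor (N := N) (K := K) (c := c) hn hp hq
    (by omega) hc1 (by omega) hc3 (2 * K + 6)
  have hlay1 : lay i0 (c + 1) l1 ≤ K := le_trans (lay_succ_le (by omega) a5) a6
  have hlen1 := (rel_length a1).1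
  -- drive p
  have hD1 : DInv i0 c (2 * K + 6) q p l1 :=
    ⟨a2, a3, a4, LS_mono a5 (by simp), by intro h; omega⟩
  obtain ⟨l2, p2, z, k, b1, b2, b3, b4, b5, b6, b7, b8, b9, b10, b11⟩ :=
    drive (N := N) (K := K) (i0 := i0) (c := c) (W := 2 * K + 6) (q := q) (c + K + 4) (by omega)
      (by push_cast; omega) (c + K + 4 - p i0).toNat l1 p hD1 (by omega) (by omega) (by omega)
  have hphq : (ph i0 z q : ℤ) + k ≤ ph i0 p q + 4 * (ρ + K + 4) := by
    have h1 : (ph i0 z q : ℤ) = 2 * |z i0 - q i0| + dp i0 z q := by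
      unfold ph; push_cast; rw [← Int.natCast_natAbs]
    have h2 := dp_triangle i0 z p q
    rw [dp_comm i0 z p] at h2
    rw [h1, hphz]
    rcases abs_cases (z i0 - q i0) with ⟨h3, _⟩ | ⟨h3, _⟩ <;> rw [h3] <;> omega
  have hrel2 : Rel i0 N K k (2 * K + 7) l l2 := (a1.trans b1).mono (by omega) (by omega)
  rcases b11 with b11 | b11 | ⟨b11, b12⟩
  · -- closed
    refine ⟨l2, p2, q, k, hrel2.mono le_rfl (by omega), b2, b3, b4, ?_, by omega, Or.inl b11⟩
    omega
  · -- merged
    refine ⟨l2, p2, q, k, hrel2.mono le_rfl (by omega), b2, b3, b4, ?_, by omega,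
      Or.inr (by omega)⟩
    omega
  -- arrived; drive q
  have hlay2 : lay i0 (c + 1) l2 ≤ K + 1 := by split_ifs at b10 <;> omega
  have hlen2 := (rel_length b1).1
  have hD2 : DInv i0 c (2 * K + 6) p2 q l2.reverse := by
    refine ⟨List.nodup_reverse.2 b2, ?_, ?_, ?_, by intro h; omega⟩
    · rw [List.head?_reverse]; exact b4
    · rw [List.getLast?_reverse]; exact b3
    · apply LS_reverse
      apply LS_mono b11.ls
      intro x hx; simp at hx ⊢; tauto
  have hmul : K * 1 = K := by ring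
  have hlen3 : l2.reverse.length + (c + 1 - q i0).toNat ≤ N := by
    rw [List.length_reverse]
    have : (k : ℤ) ≤ c + K + 4 - p i0 := by omega
    -- crude bound
    omega
  obtain ⟨l3, q3, z3, k3, c1, c2, c3, c4, c5, c6, c7, c8, c9, c10, c11⟩ :=
    drive (N := N) (K := K) (i0 := i0) (c := c) (W := 2 * K + 6) (q := p2) (c + 1) (by omega)
      (by push_cast; omega) (c + 1 - q i0).toNat l2.reverse q hD2 (by omega) (by omega) hlen3
  rw [psum_reverse _ (gph_comm i0)] at c8
  rw [psum_reverse _ gp_comm] at c9 c11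
  rw [lay_perm (List.reverse_perm l2)] at c10
  have hph3 : (ph i0 z3 p2 : ℤ) + k3 ≤ ph i0 p2 q + 4 * (ρ + K + 4) := by
    have h0 := ph_triangle i0 z3 q p2
    have h1 : (ph i0 z3 q : ℤ) = 2 * |z3 i0 - q i0| + dp i0 z3 q := by
      unfold ph; push_cast; rw [← Int.natCast_natAbs]
    rw [ph_comm i0 q p2] at h0
    rw [dp_comm] at c7
    rcases abs_cases (z3 i0 - q i0) with ⟨h3, _⟩ | ⟨h3, _⟩ <;> rw [h3] at h1 <;> omega
  have r1 : Rel i0 N K 1 0 l2 l2.reverse := Rel.of_cheap (Cheap.flip l2)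
  have r3 : Rel i0 N K 1 0 l3 l3.reverse := Rel.of_cheap (Cheap.flip l3)
  have hrel3 : Rel i0 N K (k + k3 + 2) (2 * K + 8) l l3.reverse :=
    (((hrel2.trans r1).trans c1).trans r3).mono (by omega) (by omega)
  have hhead : l3.reverse.head? = some p2 := by rw [List.head?_reverse]; exact c4
  have hlast : l3.reverse.getLast? = some q3 := by rw [List.getLast?_reverse]; exact c3
  rcases c11 with c11 | c11 | ⟨c11, c12⟩
  · refine ⟨l3.reverse, p2, q3, k + k3 + 2, hrel3, List.nodup_reverse.2 c2, hhead, hlast, ?_, ?_,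
      Or.inl c11.symm⟩
    · rw [psum_reverse _ (gph_comm i0), ph_comm i0 p2 q3]; omega
    · rw [psum_reverse _ gp_comm]; omega
  · refine ⟨l3.reverse, p2, q3, k + k3 + 2, hrel3, List.nodup_reverse.2 c2, hhead, hlast, ?_, ?_,
      Or.inr ?_⟩
    · rw [psum_reverse _ (gph_comm i0), ph_comm i0 p2 q3]; omega
    · rw [psum_reverse _ gp_comm]; omega
    · rw [psum_reverse _ gp_comm]; omega
  -- both arrived
  have hls3 : LS i0 c (2 * K + 6) {p2, q3} l3.reverse := by
    apply LS_reverse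
    apply LS_mono c11.ls
    intro x hx; simp at hx ⊢; tauto
  have hlay3 : lay i0 (c + 1) l3.reverse ≤ K + 2 := by
    rw [lay_perm (List.reverse_perm l3)]
    split_ifs at c10 <;> omega
  obtain ⟨l4, p4, q4, e1, e2, e3, e4, e5, e6, e7⟩ := finish (N := N) (K := K)
    (List.nodup_reverse.2 c2) hhead hlast hls3 b12 c12 rfl hlay3
  rw [psum_reverse _ (gph_comm i0)] at e6
  rw [psum_reverse _ gp_comm] at e7
  have hdp : dp i0 p2 q3 ≤ ph i0 q3 p2 := by
    rw [ph_comm]; unfold ph; omega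
  have hadj := ph_adj_le i0 e5
  refine ⟨l4, p4, q4, (k + k3 + 2) + (dp i0 p2 q3 + (2 * K + 6) + 2),
    (hrel3.trans e1).mono le_rfl (by omega), e2, e3, e4, ?_, by omega, Or.inl e5⟩
  omega

/-- one stage -/
lemma stage {N K ρ : ℕ} {l : List (Pt d)} {p q : Pt d} (hn : l.Nodup)
    (hp : l.head? = some p) (hq : l.getLast? = some q)
    (hlen : l.length < (K + 1) * ρ)
    (hN : l.length + K * (2 * K + 6) + ph i0 p q + 2 * ρ + 2 * K + 8 ≤ N) :
    ∃ l' p' q' k, Rel i0 N K k (2 * K + 8) l l' ∧ l'.Nodup ∧ l'.head? = some p' ∧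
      l'.getLast? = some q' ∧
      psum (gph i0) l' + ph i0 p' q' + k ≤ psum (gph i0) l + ph i0 p q +
        (2 * (2 * K + 6) * psum gp l + 8 * (ρ + K + 4) + 2 * K + 21) ∧
      psum gp l' ≤ psum gp l ∧ (Adj p' q' ∨ psum gp l' + 1 ≤ psum gp l) := by
  rcases le_total (p i0) (q i0) with h | h
  · obtain ⟨l', p', q', k, h1, h2, h3, h4, h5, h6, h7⟩ := stage_aux hn hp hq h hlen hN
    exact ⟨l', p', q', k, h1, h2, h3, h4, by omega, h6, h7⟩
  · have hp' : l.reverse.head? = some q := by rw [List.head?_reverse]; exact hq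
    have hq' : l.reverse.getLast? = some p := by rw [List.getLast?_reverse]; exact hp
    obtain ⟨l', p', q', k, h1, h2, h3, h4, h5, h6, h7⟩ := stage_aux (N := N) (K := K) (ρ := ρ)
      (List.nodup_reverse.2 hn) hp' hq' h (by rw [List.length_reverse]; exact hlen)
      (by rw [List.length_reverse, ph_comm]; exact hN)
    rw [psum_reverse _ (gph_comm i0), psum_reverse _ gp_comm, ph_comm i0 q p] at h5
    rw [psum_reverse _ gp_comm] at h6 h7
    have r1 : Rel i0 N K 1 0 l l.reverse := Rel.of_cheap (Cheap.flip l)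
    exact ⟨l', p', q', 1 + k, (r1.trans h1).mono le_rfl (by omega), h2, h3, h4, by omega, h6, h7⟩

end Pool.Agent.Lib.Pff0a55C
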