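import Pool.Agent.Lib.Pff0a55C.Drive

set_option autoImplicit false

namespace Pool.Agent.Lib.Pff0a55C

variable {d : ℕ} {i0 : Fin d}

/-- invariant of the travel phase -/
structure TInv (i0 : Fin d) (c : ℤ) (W : ℕ) (q p : Pt d) (l : List (Pt d)) : Prop where
  nodup : l.Nodup
  head : l.head? = some p
  last : l.getLast? = some q
  line : ∀ x ∈ l, c < x i0 → x i0 ≤ c + W → x ≠ q → dp i0 x q < dp i0 p q →
    Cons l (x - E i0) x ∧ Cons l x (x + E i0)

/-- the lines ahead -/
def ahead (i0 : Fin d) (c : ℤ) (q p : Pt d) (l : List (Pt d)) : Finset (Pt d) :=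
  l.toFinset.filter (fun x => x i0 = c + 1 ∧ dp i0 x q < dp i0 p q)

lemma dp_update (x q : Pt d) (s : ℤ) : dp i0 (Function.update x i0 s) q = dp i0 x q := by
  apply dp_congr
  · intro i hi; simp [Function.update_of_ne hi]
  · intro i _; rfl

lemma update_sub_E (x : Pt d) (s : ℤ) :
    Function.update x i0 s - E i0 = Function.update x i0 (s - 1) := by
  funext i
  by_cases hi : i = i0
  · subst hi; simp
  · simp [Function.update_of_ne hi, E_ne hi]

lemma TInv.walk {c : ℤ} {W : ℕ} {q p : Pt d} {l : List (Pt d)} (h : TInv i0 c W q p l)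
    {x : Pt d} (hx : x ∈ l) (hx2 : x i0 ≤ c + W) (hx3 : 0 < dp i0 x q)
    (hx4 : dp i0 x q < dp i0 p q) : ∀ k : ℕ, c < x i0 - k → Function.update x i0 (x i0 - k) ∈ l := by
  intro k
  induction k with
  | zero => intro _; simpa using hx
  | succ k ih =>
    intro hk
    push_cast at hk
    have h1 := ih (by omega)
    have h2 := (h.line _ h1 (by simp; omega) (by simp; omega) (by
      intro hcon
      have : dp i0 (Function.update x i0 (x i0 - k)) q = 0 := by rw [hcon, dp_self]
      rw [dp_update] at this; omega) (by rw [dp_update]; exact hx4)).1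
    have h3 := h2.mem_left
    rw [update_sub_E] at h3
    have h4 : x i0 - ((k + 1 : ℕ) : ℤ) = x i0 - k - 1 := by push_cast; ring
    rw [h4]; exact h3

lemma exists_step {p q : Pt d} (h : 0 < dp i0 p q) : ∃ z, Adj p z ∧ z i0 = p i0 ∧
    dp i0 z q + 1 = dp i0 p q ∧ dp i0 p z = 1 := by
  have hex : ∃ j, j ≠ i0 ∧ p j ≠ q j := by
    by_contra hcon
    push Not at hcon
    have : dp i0 p q = dp i0 q q := dp_congr i0 hcon (fun _ _ => rfl)
    rw [dp_self] at this; omega
  obtain ⟨j, hj, hpq⟩ := hex
  have hdp : ∀ u v : Pt d, dp i0 u v = (u j - v j).natAbs +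
      ∑ i ∈ (Finset.univ.erase i0).erase j, (u i - v i).natAbs := by
    intro u v
    unfold dp
    rw [← Finset.add_sum_erase _ _ (Finset.mem_erase.2 ⟨hj, Finset.mem_univ j⟩)]
  rcases lt_or_gt_of_ne hpq with hlt | hlt
  · refine ⟨p + E j, adj_add_E j p, by simp [E_ne hj.symm], ?_, ?_⟩
    · rw [hdp, hdp]
      have : ∑ i ∈ (Finset.univ.erase i0).erase j, ((p + E j) i - q i).natAbs =
          ∑ i ∈ (Finset.univ.erase i0).erase j, (p i - q i).natAbs := by
        refine Finset.sum_congr rfl fun i hi => ?_
        simp [E_ne (Finset.ne_of_mem_erase hi)]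
      rw [this]; simp; omega
    · rw [hdp]
      have : ∑ i ∈ (Finset.univ.erase i0).erase j, (p i - (p + E j) i).natAbs = 0 := by
        refine Finset.sum_eq_zero fun i hi => ?_
        simp [E_ne (Finset.ne_of_mem_erase hi)]
      rw [this]; simp
  · refine ⟨p - E j, adj_sub_E j p, by simp [E_ne hj.symm], ?_, ?_⟩
    · rw [hdp, hdp]
      have : ∑ i ∈ (Finset.univ.erase i0).erase j, ((p - E j) i - q i).natAbs =
          ∑ i ∈ (Finset.univ.erase i0).erase j, (p i - q i).natAbs := by
        refine Finset.sum_congr rfl fun i hi => ?_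
        simp [E_ne (Finset.ne_of_mem_erase hi)]
      rw [this]; simp; omega
    · rw [hdp]
      have : ∑ i ∈ (Finset.univ.erase i0).erase j, (p i - (p - E j) i).natAbs = 0 := by
        refine Finset.sum_eq_zero fun i hi => ?_
        simp [E_ne (Finset.ne_of_mem_erase hi)]
      rw [this]; simp

/-- the travel phase -/
lemma travel {N K : ℕ} {c : ℤ} {W : ℕ} {q : Pt d} :
    ∀ n : ℕ, ∀ l p, TInv i0 c W q p l → dp i0 p q = n + 1 →
      c + 2 + ((ahead i0 c q p l).card : ℤ) ≤ p i0 →
      p i0 + ((ahead i0 c q p l).card : ℤ) ≤ c + W →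
    ∃ l' p', Rel i0 N K n 0 l l' ∧ TInv i0 c W q p' l' ∧ dp i0 p' q = 1 ∧
      c + 2 ≤ p' i0 ∧ p' i0 ≤ c + W ∧
      psum (gph i0) l' = psum (gph i0) l ∧ psum gp l' = psum gp l := by
  classical
  intro n
  induction n with
  | zero =>
    intro l p h h1 h2 h3
    refine ⟨l, p, Rel.refl l, h, h1, by omega, by omega, rfl, rfl⟩
  | succ n ih =>
    intro l p h h1 h2 h3
    obtain ⟨z, hz1, hz2, hz3, hz4⟩ := exists_step (i0 := i0) (p := p) (q := q) (by omega)
    have hpq : ¬ Adj p q := by
      intro hcon; have := dp_adj_le i0 hcon; omega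
    have hzq : z ≠ q := by rintro rfl; exact hpq hz1
    have hzc : c < z i0 ∧ z i0 ≤ c + W := by rw [hz2]; omega
    rcases move_cases h.nodup h.head h.last hz1 hpq with ⟨hz, r, hr⟩ | ⟨B, hB⟩ | ⟨A, a, B, hB, hqB⟩
    · -- extension
      have hinv : TInv i0 c W q z (z :: l) := by
        refine ⟨List.nodup_cons.2 ⟨hz, h.nodup⟩, rfl, ?_, ?_⟩
        · rw [hr, List.getLast?_cons_cons, ← hr]; exact h.last
        · intro x hx hx1 hx2 hx3 hx4
          have hxz : x ≠ z := by rintro rfl; omega
          have hx' := (List.mem_cons.1 hx).resolve_left hxz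
          obtain ⟨h6, h7⟩ := h.line x hx' hx1 hx2 hx3 (by omega)
          exact ⟨h6.cons _, h7.cons _⟩
      have hah : (ahead i0 c q z (z :: l)).card ≤ (ahead i0 c q p l).card := by
        apply Finset.card_le_card
        intro x hx
        simp only [ahead, Finset.mem_filter, List.mem_toFinset] at hx ⊢
        obtain ⟨hx1, hx2, hx3⟩ := hx
        have hxz : x ≠ z := by rintro rfl; omega
        exact ⟨(List.mem_cons.1 hx1).resolve_left hxz, hx2, by omega⟩
      obtain ⟨l', p', g1, g2, g3, g4, g5, g6, g7⟩ := ih (z :: l) z hinv (by omega)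
        (by rw [hz2]; omega) (by rw [hz2]; omega)
      have hc : Cheap l (z :: l) := by
        rw [hr] at hz ⊢; exact Cheap.ext _ _ _ hz1 hz
      have hps : ∀ f : Pt d → Pt d → ℕ, f z p = 0 → psum f (z :: l) = psum f l := by
        intro f hf; rw [hr, psum_cons_cons, hf]; simp
      refine ⟨l', p', ?_, g2, g3, g4, g5, ?_, ?_⟩
      · exact ((Rel.of_cheap (i0 := i0) (N := N) (K := K) hc).trans g1).mono (by omega) (by omega)
      · rw [g6, hps _ (gph_adj i0 hz1.symm)]
      · rw [g7, hps _ (gp_adj hz1.symm)]
    · -- deletion is impossible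
      exfalso
      subst hB
      obtain ⟨h6, h7⟩ := h.line z (by simp) hzc.1 hzc.2 hzq (by omega)
      have hn : ([p] ++ z :: B).Nodup := h.nodup
      have hne : ∀ w, dp i0 w z = 0 → p ≠ w := by rintro w hw rfl; omega
      have h8 := cons_nbr hn h6
      have h9 := cons_nbr hn h7.symm
      have e1 : dp i0 (z - E i0) z = 0 := by rw [dp_sub_E, dp_self]
      have e2 : dp i0 (z + E i0) z = 0 := by rw [dp_add_E, dp_self]
      rcases h8 with h8 | h8
      · simp at h8; exact hne _ e1 h8
      · rcases h9 with h9 | h9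
        · simp at h9; exact hne _ e2 h9
        · rw [h8] at h9
          simp only [Option.some.injEq] at h9
          have := congrFun h9 i0
          simp at this; omega
    · -- reversal at a line
      subst hB
      obtain ⟨h6, h7⟩ := h.line z (by simp) hzc.1 hzc.2 hzq (by omega)
      have e0 : p :: (A ++ a :: z :: B) = (p :: (A ++ [a])) ++ z :: B := by simp
      have hn : ((p :: (A ++ [a])) ++ z :: B).Nodup := by rw [← e0]; exact h.nodup
      have h8 := cons_nbr hn (by rw [← e0]; exact h6)
      have h9 := cons_nbr hn (by rw [← e0]; exact h7.symm)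
      have hlast : (p :: (A ++ [a])).getLast? = some a := by
        rw [← List.cons_append, List.getLast?_append]; rfl
      rw [hlast] at h8 h9
      have ha : a = z - E i0 ∨ a = z + E i0 := by
        rcases h8 with h8 | h8
        · left; exact Option.some.inj h8
        · rcases h9 with h9 | h9
          · right; exact Option.some.inj h9
          · exfalso
            rw [h8] at h9
            simp only [Option.some.injEq] at h9
            have := congrFun h9 i0
            simp at this; omega
      have haz : Adj a z := by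
        rcases ha with rfl | rfl
        · exact (adj_sub_E i0 z).symm
        · exact (adj_add_E i0 z).symm
      have hdpa : dp i0 a q = dp i0 z q := by
        rcases ha with rfl | rfl
        · rw [dp_sub_E]
        · rw [dp_add_E]
      have hai : a i0 = p i0 - 1 ∨ a i0 = p i0 + 1 := by
        rcases ha with rfl | rfl
        · left; simp [hz2]
        · right; simp [hz2]
      have hperm : (a :: ((p :: A).reverse ++ z :: B)).Perm (p :: (A ++ a :: z :: B)) := by
        have e1 : (a :: ((p :: A).reverse ++ z :: B)) = ((p :: A) ++ [a]).reverse ++ z :: B := by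
          simp
        have e2 : p :: (A ++ a :: z :: B) = ((p :: A) ++ [a]) ++ z :: B := by simp
        rw [e1, e2]
        exact (List.reverse_perm _).append_right _
      have hinv : TInv i0 c W q a (a :: ((p :: A).reverse ++ z :: B)) := by
        refine ⟨hperm.nodup_iff.2 h.nodup, rfl, ?_, ?_⟩
        · rw [rev_getLast?]; exact h.last
        · intro x hx hx1 hx2 hx3 hx4
          have hxl := hperm.mem_iff.1 hx
          have hxa : x ≠ a := by rintro rfl; omega
          have hxz : x ≠ z := by rintro rfl; omega
          obtain ⟨h10, h11⟩ := h.line x hxl hx1 hx2 hx3 (by omega)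
          constructor
          · apply rev_cons h10
            · rintro ⟨_, h12⟩; exact hxz h12
            · rintro ⟨_, h12⟩; exact hxa h12
          · apply rev_cons h11
            · rintro ⟨h12, _⟩; exact hxa h12
            · rintro ⟨h12, _⟩; exact hxz h12
      have hah : (ahead i0 c q a (a :: ((p :: A).reverse ++ z :: B))).card + 1 ≤
          (ahead i0 c q p (p :: (A ++ a :: z :: B))).card := by
        have hzl : z ∈ p :: (A ++ a :: z :: B) := by simp
        have hw := h.walk hzl hzc.2 (by omega) (by omega) (z i0 - (c + 1)).toNat (by omega)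
        have e3 : z i0 - ((z i0 - (c + 1)).toNat : ℤ) = c + 1 := by omega
        rw [e3] at hw
        set x0 := Function.update z i0 (c + 1) with hx0
        have hx0q : dp i0 x0 q = dp i0 z q := by rw [hx0, dp_update]
        have hsub : ahead i0 c q a (a :: ((p :: A).reverse ++ z :: B)) ⊆
            (ahead i0 c q p (p :: (A ++ a :: z :: B))).erase x0 := by
          intro x hx
          simp only [ahead, Finset.mem_filter, List.mem_toFinset, Finset.mem_erase] at hx ⊢
          obtain ⟨hx1, hx2, hx3⟩ := hx
          refine ⟨?_, hperm.mem_iff.1 hx1, hx2, by omega⟩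
          rintro rfl; omega
        have h12 := Finset.card_le_card hsub
        have hmem : x0 ∈ ahead i0 c q p (p :: (A ++ a :: z :: B)) := by
          simp only [ahead, Finset.mem_filter, List.mem_toFinset]
          exact ⟨hw, by rw [hx0]; simp, by omega⟩
        rw [Finset.card_erase_of_mem hmem] at h12
        have := Finset.card_pos.2 ⟨x0, hmem⟩
        omega
      obtain ⟨l', p', g1, g2, g3, g4, g5, g6, g7⟩ := ih _ a hinv (by omega) (by omega) (by omega)
      have hc : Cheap (p :: (A ++ a :: z :: B)) (a :: ((p :: A).reverse ++ z :: B)) :=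
        Cheap.rev (p :: A) a z B haz h.nodup
      have hgp := rev_psum gp gp_comm p A a z B
      have hgph := rev_psum (gph i0) (gph_comm i0) p A a z B
      rw [gp_adj hz1, gp_adj haz] at hgp
      rw [gph_adj i0 hz1, gph_adj i0 haz] at hgph
      refine ⟨l', p', ?_, g2, g3, g4, g5, ?_, ?_⟩
      · exact ((Rel.of_cheap (i0 := i0) (N := N) (K := K) hc).trans g1).mono (by omega) (by omega)
      · rw [g6]; omega
      · rw [g7]; omega

/-- invariant of the last phase -/
structure FInv (i0 : Fin d) (p q : Pt d) (l : List (Pt d)) : Prop where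
  nodup : l.Nodup
  head : l.head? = some q
  last : l.getLast? = some p
  line : ∀ x ∈ l, q i0 < x i0 → x i0 ≤ p i0 → x ≠ p → dp i0 x q = 0 → Cons l (x - E i0) x

/-- the last phase: `q` moves along its row until it meets `p` -/
lemma rowdrive {N K : ℕ} {p : Pt d} :
    ∀ n : ℕ, ∀ l q, FInv i0 p q l → p i0 - q i0 = n → dp i0 q p ≤ 1 → q ≠ p →
    ∃ l' q', Rel i0 N K n 0 l l' ∧ l'.Nodup ∧ l'.head? = some q' ∧ l'.getLast? = some p ∧
      Adj q' p ∧ psum (gph i0) l' = psum (gph i0) l ∧ psum gp l' = psum gp l := by
  intro n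
  induction n with
  | zero =>
    intro l q h h1 h2 h3
    refine ⟨l, q, Rel.refl l, h.nodup, h.head, h.last, ?_, rfl, rfl⟩
    unfold Adj
    rw [dist1_eq i0]
    have h4 : q i0 - p i0 = 0 := by push_cast at h1; omega
    rw [h4]
    rcases Nat.eq_zero_or_pos (dp i0 q p) with h5 | h5
    · exfalso; apply h3
      funext i
      by_cases hi : i = i0
      · rw [hi]; omega
      · exact dp_eq_zero h5 i hi
    · simp; omega
  | succ n ih =>
    intro l q h h1 h2 h3
    by_cases hpq : Adj q p
    · exact ⟨l, q, (Rel.refl l).mono (by omega) (by omega), h.nodup, h.head, h.last, hpq, rfl, rfl⟩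
    have hzadj : Adj q (q + E i0) := adj_add_E i0 q
    have hzp : q + E i0 ≠ p := by intro hcon; rw [← hcon] at hpq; exact hpq hzadj
    have hrow : ∀ x, dp i0 x (q + E i0) = dp i0 x q := by
      intro x; rw [dp_comm, dp_add_E, dp_comm]
    rcases move_cases h.nodup h.head h.last hzadj hpq with ⟨hz, r, hr⟩ | ⟨B, hB⟩ | ⟨A, a, B, hB, hqB⟩
    · have hinv : FInv i0 p (q + E i0) ((q + E i0) :: l) := by
        refine ⟨List.nodup_cons.2 ⟨hz, h.nodup⟩, rfl, ?_, ?_⟩
        · rw [hr, List.getLast?_cons_cons, ← hr]; exact h.last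
        · intro x hx hx1 hx2 hx3 hx4
          have hxz : x ≠ q + E i0 := by rintro rfl; omega
          have hx' := (List.mem_cons.1 hx).resolve_left hxz
          rw [hrow] at hx4
          simp at hx1
          exact (h.line x hx' (by omega) hx2 hx3 hx4).cons _
      obtain ⟨l', q', g1, g2, g3, g4, g5, g6, g7⟩ := ih _ (q + E i0) hinv
        (by simp; push_cast at h1; omega) (by rw [dp_add_E]; exact h2) hzp
      have hc : Cheap l ((q + E i0) :: l) := by
        rw [hr] at hz ⊢; exact Cheap.ext _ _ _ hzadj hz
      have hps : ∀ f : Pt d → Pt d → ℕ, f (q + E i0) q = 0 → psum f ((q + E i0) :: l) = psum f l := by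
        intro f hf; rw [hr, psum_cons_cons, hf]; simp
      refine ⟨l', q', ?_, g2, g3, g4, g5, ?_, ?_⟩
      · exact ((Rel.of_cheap (i0 := i0) (N := N) (K := K) hc).trans g1).mono (by omega) (by omega)
      · rw [g6, hps _ (gph_adj i0 hzadj.symm)]
      · rw [g7, hps _ (gp_adj hzadj.symm)]
    · subst hB
      have hn := List.nodup_cons.1 h.nodup
      have hinv : FInv i0 p (q + E i0) ((q + E i0) :: B) := by
        refine ⟨hn.2, rfl, ?_, ?_⟩
        · have := h.last; rw [List.getLast?_cons_cons] at this; exact this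
        · intro x hx hx1 hx2 hx3 hx4
          rw [hrow] at hx4
          simp at hx1
          have h6 := h.line x (List.mem_cons_of_mem _ hx) (by omega) hx2 hx3 hx4
          rw [cons_cons_iff] at h6
          rcases h6 with ⟨h6, _⟩ | ⟨h6, _⟩ | h6
          · exfalso; have := congrFun h6 i0; simp at this; omega
          · exfalso; rw [h6] at hx1; omega
          · exact h6
      obtain ⟨l', q', g1, g2, g3, g4, g5, g6, g7⟩ := ih _ (q + E i0) hinv
        (by simp; push_cast at h1; omega) (by rw [dp_add_E]; exact h2) hzp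
      have hc : Cheap (q :: (q + E i0) :: B) ((q + E i0) :: B) := Cheap.del _ _ _ hzadj
      have hps : ∀ f : Pt d → Pt d → ℕ, f q (q + E i0) = 0 →
          psum f (q :: (q + E i0) :: B) = psum f ((q + E i0) :: B) := by
        intro f hf; rw [psum_cons_cons, hf]; simp
      refine ⟨l', q', ?_, g2, g3, g4, g5, ?_, ?_⟩
      · exact ((Rel.of_cheap (i0 := i0) (N := N) (K := K) hc).trans g1).mono (by omega) (by omega)
      · rw [g6, hps _ (gph_adj i0 hzadj)]
      · rw [g7, hps _ (gp_adj hzadj)]
    · exfalso
      subst hB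
      have hn := List.nodup_cons.1 h.nodup
      have h6 := h.line (q + E i0) (by simp) (by simp) (by simp; push_cast at h1; omega) hzp
        (by rw [dp_add_E, dp_self])
      have h7 : q + E i0 - E i0 = q := by simp
      rw [h7, cons_cons_iff] at h6
      rcases h6 with ⟨_, h6⟩ | ⟨h6, _⟩ | h6
      · cases A with
        | nil =>
          simp at h6
          have := hn.2
          simp [h6] at this
        | cons x A =>
          simp at h6
          have := hn.2
          simp [h6] at this
      · exact add_E_ne i0 q h6.symm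
      · exact hn.1 h6.mem_left

end Pool.Agent.Lib.Pff0a55C
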